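import Pool.Agent.Helper91.FP.Omega

/-!
# Squarefree fixed points: the prime factors form one cycle
-/

set_option autoImplicit false

namespace Pool.Agent.Helper91.FP

open Finset

theorem fact_one {n p : ℕ} (hsf : Squarefree n) (hp : p ∈ n.primeFactors) :
    n.factorization p = 1 := by
  have h1 := factorization_pos hp
  have h2 := hsf.natFactorization_le_one p
  omega

theorem card_sqf {n : ℕ} (hn : 0 < n) (hsf : Squarefree n) :
    n.divisors.card = 2 ^ n.primeFactors.card := by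
  rw [card_prod hn.ne', prod_congr rfl (fun p hp ↦ by rw [fact_one hsf hp]), prod_const]

theorem sqf_eq {n : ℕ} (hn : 0 < n) (h : a n = n) (hsf : Squarefree n) :
    ∏ p ∈ n.primeFactors, (1 + 2 * p) = n * (1 + 2 ^ n.primeFactors.card) := by
  rw [← card_sqf hn hsf, ← prod_eq hn h]
  refine prod_congr rfl fun p hp ↦ ?_
  rw [fact_one hsf hp]
  simp [G, sum_range_succ]

theorem sqf_size {n p : ℕ} (h : a n = n) (hsf : Squarefree n) (hp : p ∈ n.primeFactors) :
    2 ^ n.primeFactors.card < 2 * p := by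
  have hn : 0 < n := Nat.pos_of_ne_zero (Nat.mem_primeFactors.1 hp).2.2
  have hpp := Nat.prime_of_mem_primeFactors hp
  have h1 := size_all h hp
  obtain ⟨m, h2, h3, h4⟩ := decomp hn hpp
  rw [← h4] at h1
  rw [fact_one hsf hp] at h1 h2
  rw [← card_sqf hn hsf]
  have hc : Nat.Coprime (p ^ 1) m :=
    Nat.Coprime.pow_left _ ((Nat.Prime.coprime_iff_not_dvd hpp).2 h3)
  have h5 : n.divisors.card = 2 * m.divisors.card := by
    conv_lhs => rw [h2]
    rw [card_mul hc, card_div_pow hpp]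
  omega

/-- The permutation. -/
theorem exists_perm {n : ℕ} (hn : 0 < n) (h : a n = n) (hsf : Squarefree n) :
    ∃ σ : Equiv.Perm n.primeFactors, ∀ p : n.primeFactors, (σ p : ℕ) ∣ 1 + 2 * (p : ℕ) := by
  have hprime : ∀ q : n.primeFactors, Nat.Prime (q : ℕ) := fun q ↦
    Nat.prime_of_mem_primeFactors q.2
  have hex : ∀ q : n.primeFactors, ∃ p : n.primeFactors, (q : ℕ) ∣ 1 + 2 * (p : ℕ) := by
    intro q
    have h1 : (q : ℕ) ∣ ∏ p ∈ n.primeFactors, (1 + 2 * p) := by
      rw [sqf_eq hn h hsf]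
      exact Dvd.dvd.mul_right (Nat.dvd_of_mem_primeFactors q.2) _
    obtain ⟨p, hp, hd⟩ := ((hprime q).prime.dvd_finsetProd_iff _).1 h1
    exact ⟨⟨p, hp⟩, hd⟩
  choose t ht using hex
  have hsurj : Function.Surjective t := by
    by_contra hns
    rw [Function.Surjective] at hns
    push Not at hns
    obtain ⟨p0, hp0⟩ := hns
    set D := ∏ p ∈ n.primeFactors.erase p0, (1 + 2 * p) with hD
    have h1 : ∏ p ∈ n.primeFactors, p ∣ D := by
      refine Finset.prod_primes_dvd D (fun q hq ↦ (Nat.prime_of_mem_primeFactors hq).prime) ?_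
      intro q hq
      have h2 := ht ⟨q, hq⟩
      refine h2.trans (dvd_prod_of_mem (fun p ↦ 1 + 2 * p) ?_)
      rw [mem_erase]
      refine ⟨fun h3 ↦ hp0 ⟨q, hq⟩ (Subtype.ext h3), (t ⟨q, hq⟩).2⟩
    rw [Nat.prod_primeFactors_of_squarefree hsf] at h1
    obtain ⟨k, hk⟩ := h1
    have h2 : (1 + 2 * (p0 : ℕ)) * D = n * (1 + 2 ^ n.primeFactors.card) := by
      rw [← sqf_eq hn h hsf, hD]
      exact mul_prod_erase _ (fun p ↦ 1 + 2 * p) p0.2
    rw [hk] at h2
    have h3 : n * ((1 + 2 * (p0 : ℕ)) * k) = n * (1 + 2 ^ n.primeFactors.card) := by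
      rw [← h2]; ring
    have h4 := Nat.eq_of_mul_eq_mul_left hn h3
    have h5 := sqf_size h hsf p0.2
    have h6 : 1 ≤ k := by
      rcases Nat.eq_zero_or_pos k with h0 | h0
      · rw [h0, mul_zero] at h4
        exact absurd h4.symm (by positivity)
      · exact h0
    have h7 : 1 + 2 * (p0 : ℕ) ≤ (1 + 2 * (p0 : ℕ)) * k := Nat.le_mul_of_pos_right _ h6
    omega
  have hbij : Function.Bijective t := ⟨Finite.injective_iff_surjective.2 hsurj, hsurj⟩
  refine ⟨(Equiv.ofBijective t hbij).symm, fun p ↦ ?_⟩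
  have h1 := ht ((Equiv.ofBijective t hbij).symm p)
  have h2 : t ((Equiv.ofBijective t hbij).symm p) = p :=
    Equiv.ofBijective_apply_symm_apply t hbij p
  rwa [h2] at h1

/-- The product of the cofactors over an invariant set. -/
theorem inv_lower {S : Finset ℕ} (hS : ∀ p ∈ S, 0 < p) (σ : Equiv.Perm S) (c : S → ℕ)
    (hc : ∀ p : S, c p * (σ p : ℕ) = 1 + 2 * (p : ℕ)) (T : Finset S)
    (hT : ∀ p, p ∈ T ↔ σ p ∈ T) (hne : T.Nonempty) : 2 ^ T.card < ∏ p ∈ T, c p := by
  have h1 : ∏ p ∈ T, (σ p : ℕ) = ∏ p ∈ T, (p : ℕ) := by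
    refine prod_bij (fun p _ ↦ σ p) (fun p hp ↦ (hT p).1 hp)
      (fun p _ q _ hpq ↦ σ.injective hpq) (fun q hq ↦ ?_) (fun p _ ↦ rfl)
    refine ⟨σ.symm q, ?_, σ.apply_symm_apply q⟩
    rw [hT, σ.apply_symm_apply]
    exact hq
  have h2 : (∏ p ∈ T, c p) * ∏ p ∈ T, (p : ℕ) = ∏ p ∈ T, (1 + 2 * (p : ℕ)) := by
    rw [← h1, ← prod_mul_distrib]
    exact prod_congr rfl fun p _ ↦ hc p
  have h3 : ∏ p ∈ T, (2 * (p : ℕ)) < ∏ p ∈ T, (1 + 2 * (p : ℕ)) :=
    prod_lt_prod_of_nonempty (fun p _ ↦ by have := hS p p.2; omega) (fun p _ ↦ by omega) hne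
  rw [← h2, prod_mul_distrib, prod_const] at h3
  exact lt_of_mul_lt_mul_right h3 (Nat.zero_le _)

/-- The prime factors of a squarefree fixed point form one cycle. -/
theorem cycle {n : ℕ} (hn : 1 < n) (h : a n = n) (hsf : Squarefree n) :
    ∃ x c : ℕ → ℕ, (∀ i, x (i + n.primeFactors.card) = x i) ∧
      (∀ i, c i * x (i + 1) = 2 * x i + 1) ∧
      (∏ i ∈ range n.primeFactors.card, c i = 2 ^ n.primeFactors.card + 1) ∧
      n.primeFactors = (range n.primeFactors.card).image x := by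
  have hn0 : 0 < n := by omega
  obtain ⟨σ, hσ⟩ := exists_perm hn0 h hsf
  choose c hc using hσ
  have hc' : ∀ p : n.primeFactors, c p * (σ p : ℕ) = 1 + 2 * (p : ℕ) := fun p ↦ by
    rw [hc p, mul_comm]
  have hSpos : ∀ p ∈ n.primeFactors, 0 < p := fun p hp ↦
    (Nat.prime_of_mem_primeFactors hp).pos
  set R := n.primeFactors.card with hR
  -- the product of all cofactors
  have hprodS : ∏ p : n.primeFactors, (p : ℕ) = n :=
    (prod_coe_sort n.primeFactors fun p ↦ p).trans (Nat.prod_primeFactors_of_squarefree hsf)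
  have hall : ∏ p, c p = 2 ^ R + 1 := by
    have h1 : (∏ p, c p) * ∏ p, (σ p : ℕ) = ∏ p : n.primeFactors, (1 + 2 * (p : ℕ)) := by
      rw [← prod_mul_distrib]
      exact prod_congr rfl fun p _ ↦ hc' p
    have h2 : ∏ p, (σ p : ℕ) = n :=
      (_root_.Equiv.prod_comp σ fun p : n.primeFactors ↦ (p : ℕ)).trans hprodS
    have h3 : ∏ p : n.primeFactors, (1 + 2 * (p : ℕ)) = n * (1 + 2 ^ R) :=
      (prod_coe_sort n.primeFactors fun p ↦ 1 + 2 * p).trans (sqf_eq hn0 h hsf)
    rw [h2, h3, mul_comm] at h1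
    have := Nat.eq_of_mul_eq_mul_left hn0 h1
    omega
  -- one cycle
  have hRpos : 0 < R := card_pos.2 (Nat.nonempty_primeFactors.2 hn)
  obtain ⟨p0, hp0⟩ := Nat.nonempty_primeFactors.2 hn
  set x0 : n.primeFactors := ⟨p0, hp0⟩
  classical
  have hcyc : ∀ y, σ.SameCycle x0 y := by
    by_contra hno
    push Not at hno
    obtain ⟨y, hy⟩ := hno
    set T : Finset n.primeFactors := univ.filter fun p ↦ σ.SameCycle x0 p with hT
    set U : Finset n.primeFactors := univ.filter fun p ↦ ¬ σ.SameCycle x0 p with hU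
    have h1 : 2 ^ T.card < ∏ p ∈ T, c p := by
      refine inv_lower hSpos σ c hc' T (fun p ↦ ?_) ⟨x0, ?_⟩
      · rw [hT, mem_filter, mem_filter]
        simp [Equiv.Perm.sameCycle_apply_right]
      · rw [hT, mem_filter]
        exact ⟨mem_univ _, Equiv.Perm.SameCycle.refl σ x0⟩
    have h2 : 2 ^ U.card < ∏ p ∈ U, c p := by
      refine inv_lower hSpos σ c hc' U (fun p ↦ ?_) ⟨y, ?_⟩
      · rw [hU, mem_filter, mem_filter]
        simp [Equiv.Perm.sameCycle_apply_right]
      · rw [hU, mem_filter]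
        exact ⟨mem_univ _, hy⟩
    have h3 : T.card + U.card = R := by
      have := card_filter_add_card_filter_not (s := (univ : Finset n.primeFactors))
        (fun p ↦ σ.SameCycle x0 p)
      rw [hT, hU, this, card_univ, Fintype.card_coe]
    have h4 : (∏ p ∈ T, c p) * ∏ p ∈ U, c p = 2 ^ R + 1 := by
      rw [← hall]
      exact prod_filter_mul_prod_filter_not univ _ _
    have h5 : (2 ^ T.card + 1) * (2 ^ U.card + 1) ≤ 2 ^ R + 1 := by
      rw [← h4]
      exact Nat.mul_le_mul h1 h2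
    rw [← h3, pow_add] at h5
    have h6 : 0 < 2 ^ T.card := by positivity
    have h7 : (2 ^ T.card + 1) * (2 ^ U.card + 1) =
        2 ^ T.card * 2 ^ U.card + 2 ^ T.card + 2 ^ U.card + 1 := by ring
    have h8 : 0 < 2 ^ U.card := by positivity
    omega
  have hon : σ.IsCycleOn ((univ : Finset n.primeFactors) : Set n.primeFactors) := by
    refine ⟨?_, fun y _ z _ ↦ ?_⟩
    · rw [coe_univ]
      exact Set.bijOn_univ.2 σ.bijective
    · exact (hcyc y).symm.trans (hcyc z)
  have hcard : (univ : Finset n.primeFactors).card = R := by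
    rw [card_univ, Fintype.card_coe]
  have hper : (σ ^ R) x0 = x0 := by
    have := hon.pow_card_apply (mem_univ x0)
    rwa [hcard] at this
  set x : ℕ → ℕ := fun i ↦ ((σ ^ i) x0 : n.primeFactors) with hx
  have hxp : ∀ i, x (i + R) = x i := by
    intro i
    change (((σ ^ (i + R)) x0 : n.primeFactors) : ℕ) = ((σ ^ i) x0 : n.primeFactors)
    rw [pow_add, Equiv.Perm.mul_apply, hper]
  have hxs : ∀ i, c ((σ ^ i) x0) * x (i + 1) = 2 * x i + 1 := by
    intro i
    have h1 := hc' ((σ ^ i) x0)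
    have h2 : x (i + 1) = (σ ((σ ^ i) x0) : ℕ) := by
      change (((σ ^ (i + 1)) x0 : n.primeFactors) : ℕ) = _
      rw [pow_succ', Equiv.Perm.mul_apply]
    rw [h2, h1]
    change 1 + 2 * (((σ ^ i) x0 : n.primeFactors) : ℕ) = 2 * (((σ ^ i) x0 : n.primeFactors) : ℕ) + 1
    ring
  have himg : n.primeFactors = (range R).image x := by
    ext p
    rw [mem_image]
    constructor
    · intro hp
      obtain ⟨i, hi, h1⟩ := hon.exists_pow_eq (mem_univ x0) (mem_univ ⟨p, hp⟩)
      rw [hcard] at hi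
      exact ⟨i, mem_range.2 hi, by change (((σ ^ i) x0 : n.primeFactors) : ℕ) = p; rw [h1]⟩
    · rintro ⟨i, -, rfl⟩
      exact ((σ ^ i) x0).2
  refine ⟨x, fun i ↦ c ((σ ^ i) x0), hxp, hxs, ?_, himg⟩
  -- the product along the cycle
  have hinj : Set.InjOn x (range R : Finset ℕ) := by
    rw [← card_image_iff, ← himg, card_range]
  have h1 : ∏ i ∈ range R, x i = n := by
    have h0 : ∏ p ∈ (range R).image x, p = n := by
      rw [← himg]
      exact Nat.prod_primeFactors_of_squarefree hsf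
    rwa [prod_image hinj] at h0
  have h2 : ∏ i ∈ range R, x (i + 1) = n := by
    have h3 : (∏ i ∈ range R, x (i + 1)) * x 0 = (∏ i ∈ range R, x i) * x R := by
      rw [← prod_range_succ', prod_range_succ]
    have h4 : x R = x 0 := by have := hxp 0; rwa [zero_add] at this
    rw [h4, h1] at h3
    exact Nat.eq_of_mul_eq_mul_right (hSpos _ x0.2) h3
  have h3 : (∏ i ∈ range R, c ((σ ^ i) x0)) * ∏ i ∈ range R, x (i + 1) =
      ∏ i ∈ range R, (2 * x i + 1) := by
    rw [← prod_mul_distrib]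
    exact prod_congr rfl fun i _ ↦ hxs i
  have h4 : ∏ i ∈ range R, (2 * x i + 1) = n * (1 + 2 ^ R) := by
    have h0 : ∏ p ∈ (range R).image x, (1 + 2 * p) = n * (1 + 2 ^ R) := by
      rw [← himg]
      exact sqf_eq hn0 h hsf
    rw [prod_image hinj] at h0
    rw [← h0]
    exact prod_congr rfl fun i _ ↦ by ring
  rw [h2, h4, mul_comm] at h3
  have h5 := Nat.eq_of_mul_eq_mul_left hn0 h3
  rw [h5, add_comm]

end Pool.Agent.Helper91.FP
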