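import Mathlib

/-!
# Fixed points of the proper-divisor sum of `d τ(d)`: basic facts
-/

set_option autoImplicit false

namespace Pool.Agent.Helper91.FP

open Finset ArithmeticFunction

/-- `a(n) = ∑_{d ∣ n, d < n} d τ(d)`. -/
def a (n : ℕ) : ℕ := ∑ d ∈ n.properDivisors, d * d.divisors.card

/-- `F(n) = ∑_{d ∣ n} d τ(d)`. -/
def F (n : ℕ) : ℕ := ∑ d ∈ n.divisors, d * d.divisors.card

theorem F_eq {n : ℕ} (hn : n ≠ 0) : F n = a n + n * n.divisors.card := by
  unfold F a
  rw [← Nat.cons_self_properDivisors hn, sum_cons, Nat.cons_self_properDivisors hn, add_comm]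

/-- `F` as an arithmetic function. -/
noncomputable def FA : ArithmeticFunction ℕ := (ArithmeticFunction.id.pmul (sigma 0)) * zeta

theorem FA_apply (n : ℕ) : FA n = F n := by
  unfold FA F
  rw [ArithmeticFunction.mul_zeta_apply]
  refine sum_congr rfl fun d _ ↦ ?_
  rw [pmul_apply, id_apply, sigma_zero_apply]

theorem FA_mult : FA.IsMultiplicative :=
  (isMultiplicative_id.pmul isMultiplicative_sigma).mul isMultiplicative_zeta

theorem F_mul {m n : ℕ} (h : Nat.Coprime m n) : F (m * n) = F m * F n := by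
  rw [← FA_apply, ← FA_apply, ← FA_apply]
  exact FA_mult.2 h

theorem F_one : F 1 = 1 := by
  rw [← FA_apply]
  exact FA_mult.1

/-- `F(p^k) = ∑_{j ≤ k} (j+1) p^j`. -/
def G (p k : ℕ) : ℕ := ∑ j ∈ range (k + 1), (j + 1) * p ^ j

theorem card_div_pow {p : ℕ} (hp : p.Prime) (k : ℕ) : (p ^ k).divisors.card = k + 1 := by
  rw [Nat.divisors_prime_pow hp, card_map, card_range]

theorem F_pow {p : ℕ} (hp : p.Prime) (k : ℕ) : F (p ^ k) = G p k := by
  unfold F G
  rw [Nat.divisors_prime_pow hp, sum_map]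
  refine sum_congr rfl fun j _ ↦ ?_
  simp only [Function.Embedding.coeFn_mk]
  rw [card_div_pow hp, mul_comm]

theorem G_zero (p : ℕ) : G p 0 = 1 := by simp [G]

theorem G_succ (p k : ℕ) : G p (k + 1) = G p k + (k + 2) * p ^ (k + 1) := by
  unfold G
  rw [sum_range_succ]

theorem G_mod (p k : ℕ) : ∃ s, G p k = 1 + p * s := by
  induction k with
  | zero => exact ⟨0, by simp [G]⟩
  | succ k ih =>
    obtain ⟨s, hs⟩ := ih
    exact ⟨s + (k + 2) * p ^ k, by rw [G_succ, hs]; ring⟩

theorem G_coprime (p k : ℕ) : Nat.Coprime (G p k) p := by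
  obtain ⟨s, hs⟩ := G_mod p k
  rw [hs]
  simp

/-- The closed form. -/
theorem G_closed (p k : ℕ) :
    ((p : ℤ) - 1) ^ 2 * (G p k : ℤ) =
      (((k : ℤ) + 1) * p ^ 2 - (k + 2) * p) * (p : ℤ) ^ k + 1 := by
  induction k with
  | zero => simp [G]; ring
  | succ k ih =>
    rw [G_succ]
    push_cast
    rw [mul_add, ih]
    ring

theorem G_lower (p k : ℕ) (hk : 1 ≤ k) : (k + 1) * p ^ k + k * p ^ (k - 1) ≤ G p k := by
  obtain ⟨k, rfl⟩ : ∃ j, k = j + 1 := ⟨k - 1, by omega⟩
  rw [G_succ]
  have h1 : (k + 1) * p ^ k ≤ G p k := by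
    unfold G
    rw [sum_range_succ]
    exact Nat.le_add_left _ _
  simp only [Nat.add_sub_cancel]
  have : (k + 1 + 1) * p ^ (k + 1) = (k + 2) * p ^ (k + 1) := by ring
  omega

theorem F_lower {m : ℕ} (hm : m ≠ 0) : m * m.divisors.card ≤ F m := by
  rw [F_eq hm]
  exact Nat.le_add_left _ _

theorem F_lower' {m : ℕ} (hm : 1 < m) : m * m.divisors.card + 1 ≤ F m := by
  rw [F_eq (by omega)]
  have h1 : 1 ≤ a m := by
    unfold a
    have h2 : 1 ∈ m.properDivisors := by
      rw [Nat.mem_properDivisors]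
      exact ⟨one_dvd _, hm⟩
    calc 1 = 1 * (Nat.divisors 1).card := by simp
      _ ≤ ∑ d ∈ m.properDivisors, d * d.divisors.card :=
        single_le_sum (f := fun d ↦ d * d.divisors.card) (fun _ _ ↦ Nat.zero_le _) h2
  omega

/-- The equation for a fixed point. -/
theorem fix_iff {n : ℕ} (hn : 0 < n) : a n = n ↔ F n = n * (1 + n.divisors.card) := by
  rw [F_eq hn.ne']
  constructor
  · intro h
    rw [h]
    ring
  · intro h
    have : n * (1 + n.divisors.card) = n + n * n.divisors.card := by ring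
    omega

theorem card_mul {m n : ℕ} (h : Nat.Coprime m n) :
    (m * n).divisors.card = m.divisors.card * n.divisors.card :=
  Nat.Coprime.card_divisors_mul h

/-- The decomposition at a prime. -/
theorem decomp {n p : ℕ} (hn : 0 < n) (hp : p.Prime) :
    ∃ m, n = p ^ n.factorization p * m ∧ ¬ p ∣ m ∧ m = n / p ^ n.factorization p := by
  refine ⟨n / p ^ n.factorization p, (Nat.ordProj_mul_ordCompl_eq_self n p).symm,
    Nat.not_dvd_ordCompl hp hn.ne', rfl⟩

/-- The equation with a prime power split off. -/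
theorem split_eq {p k m : ℕ} (hp : p.Prime) (hm : ¬ p ∣ m) (hm0 : 0 < m)
    (h : a (p ^ k * m) = p ^ k * m) :
    G p k * F m = p ^ k * m * (1 + (k + 1) * m.divisors.card) := by
  have hc : Nat.Coprime (p ^ k) m := Nat.Coprime.pow_left _ ((Nat.Prime.coprime_iff_not_dvd hp).2 hm)
  have h1 := (fix_iff (Nat.mul_pos (pow_pos hp.pos k) hm0)).1 h
  rwa [F_mul hc, card_mul hc, card_div_pow hp, F_pow hp] at h1

/-- A fixed point is not a prime power. -/
theorem not_pow {p k : ℕ} (hp : p.Prime) (h : a (p ^ k) = p ^ k) : False := by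
  have h0 := split_eq (m := 1) (k := k) hp (by
    intro h'
    exact hp.one_lt.ne' (Nat.dvd_one.1 h')) one_pos (by rwa [mul_one])
  rw [F_one] at h0
  have h1 : p ^ k ∣ G p k := ⟨1 + (k + 1) * (Nat.divisors 1).card, by linarith [h0]⟩
  have h2 : Nat.Coprime (p ^ k) (G p k) := ((G_coprime p k).pow_right k).symm
  have h3 : p ^ k = 1 := Nat.Coprime.eq_one_of_dvd h2 h1
  have h4 : k = 0 := by
    by_contra hk
    exact absurd h3 (Nat.one_lt_pow hk hp.one_lt).ne'
  subst h4
  simp [a] at h

/-- The size condition (A). -/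
theorem size {p k m : ℕ} (hp : p.Prime) (hm : ¬ p ∣ m) (hm0 : 0 < m) (hk : 1 ≤ k)
    (h : a (p ^ k * m) = p ^ k * m) : k * m.divisors.card < p := by
  have hm1 : 1 < m := by
    by_contra hle
    have : m = 1 := by omega
    subst this
    rw [mul_one] at h
    exact not_pow hp h
  have h1 := split_eq hp hm hm0 h
  have h2 := G_lower p k hk
  have h3 := F_lower' hm1
  by_contra hle
  push Not at hle
  obtain ⟨j, rfl⟩ : ∃ j, k = j + 1 := ⟨k - 1, by omega⟩
  simp only [Nat.add_sub_cancel] at h2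
  set τ := m.divisors.card
  have h4 : ((j + 1 + 1) * p ^ (j + 1) + (j + 1) * p ^ j) * (m * τ + 1) ≤ G p (j + 1) * F m :=
    Nat.mul_le_mul h2 h3
  rw [h1] at h4
  have h5 : p ^ (j + 1) * m ≤ (j + 1) * p ^ j * (m * τ) := by
    calc p ^ (j + 1) * m = p ^ j * m * p := by ring
      _ ≤ p ^ j * m * ((j + 1) * τ) := Nat.mul_le_mul_left _ hle
      _ = (j + 1) * p ^ j * (m * τ) := by ring
  have h6 : 0 < p ^ j := pow_pos hp.pos j
  have h7 : p ^ (j + 1) * m * (1 + (j + 1 + 1) * τ) =
      p ^ (j + 1) * m + (j + 1 + 1) * p ^ (j + 1) * (m * τ) := by ring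
  have h8 : ((j + 1 + 1) * p ^ (j + 1) + (j + 1) * p ^ j) * (m * τ + 1) =
      (j + 1 + 1) * p ^ (j + 1) * (m * τ) + (j + 1) * p ^ j * (m * τ) +
        ((j + 1 + 1) * p ^ (j + 1) + (j + 1) * p ^ j) := by ring
  have h9 : 0 < (j + 1) * p ^ j := by positivity
  omega

theorem two_le_card {m : ℕ} (hm : 1 < m) : 2 ≤ m.divisors.card := by
  have h1 : ({1, m} : Finset ℕ) ⊆ m.divisors := by
    intro x hx
    rw [mem_insert, mem_singleton] at hx
    rw [Nat.mem_divisors]
    rcases hx with rfl | rfl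
    · exact ⟨one_dvd _, by omega⟩
    · exact ⟨dvd_refl _, by omega⟩
  calc 2 = ({1, m} : Finset ℕ).card := (card_pair (by omega)).symm
    _ ≤ m.divisors.card := card_le_card h1

theorem prime_of_card {m : ℕ} (hm : 1 < m) (h : m.divisors.card = 2) : m.Prime := by
  rw [← Nat.properDivisors_eq_singleton_one_iff_prime]
  have h1 : m.properDivisors.card = 1 := by
    have := congrArg card (Nat.cons_self_properDivisors (n := m) (by omega))
    rw [card_cons] at this
    omega
  obtain ⟨x, hx⟩ := card_eq_one.1 h1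
  have h2 : 1 ∈ m.properDivisors := by
    rw [Nat.mem_properDivisors]
    exact ⟨one_dvd _, hm⟩
  rw [hx, mem_singleton] at h2
  rw [hx, h2]

theorem not_two_dvd {n : ℕ} (hn : 0 < n) (h : a n = n) : ¬ 2 ∣ n := by
  intro hd
  obtain ⟨m, h1, h2, -⟩ := decomp hn Nat.prime_two
  set k := n.factorization 2
  have hk : 1 ≤ k := (Nat.prime_two.dvd_iff_one_le_factorization hn.ne').1 hd
  have hm0 : 0 < m := Nat.pos_of_ne_zero (by rintro rfl; simp at h2)
  rw [h1] at h
  have hm1 : 1 < m := by
    by_contra hle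
    have : m = 1 := by omega
    subst this
    rw [mul_one] at h
    exact not_pow Nat.prime_two h
  have h3 := size Nat.prime_two h2 hm0 hk h
  have h4 := two_le_card hm1
  nlinarith

theorem three_dvd {n : ℕ} (hn : 0 < n) (h : a n = n) (hd : 3 ∣ n) : n = 21 := by
  obtain ⟨m, h1, h2, -⟩ := decomp hn Nat.prime_three
  set k := n.factorization 3
  have hk : 1 ≤ k := (Nat.prime_three.dvd_iff_one_le_factorization hn.ne').1 hd
  have hm0 : 0 < m := Nat.pos_of_ne_zero (by rintro rfl; simp at h2)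
  rw [h1] at h
  have hm1 : 1 < m := by
    by_contra hle
    have : m = 1 := by omega
    subst this
    rw [mul_one] at h
    exact not_pow Nat.prime_three h
  have h3 := size Nat.prime_three h2 hm0 hk h
  have h4 := two_le_card hm1
  have h5 : k = 1 := by nlinarith
  have h6 : m.divisors.card = 2 := by nlinarith
  have hmp := prime_of_card hm1 h6
  have h7 := split_eq Nat.prime_three h2 hm0 h
  rw [h5] at h7
  have h8 : F m = 1 + 2 * m := by
    have := F_pow hmp 1
    rw [pow_one] at this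
    rw [this]
    simp [G, sum_range_succ]
  have h9 : G 3 1 = 7 := by simp [G, sum_range_succ]
  rw [h8, h9, h6] at h7
  rw [h1, h5]
  omega

end Pool.Agent.Helper91.FP
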