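import Pool.Agent.Helper91.FP.Omega

/-!
# Square fixed points: the number of exponents congruent to 2 modulo 4 is odd
-/

set_option autoImplicit false

namespace Pool.Agent.Helper91.FP

open Finset

/-- If a fixed point is a square, the number of exponents `≡ 2 (mod 4)` is odd. -/
theorem square_case {n : ℕ} (hn : 0 < n) (h : a n = n) (hsq : IsSquare n) :
    Odd (n.primeFactors.filter fun p ↦ n.factorization p % 4 = 2).card := by
  have h2 := not_two_dvd hn h
  have hodd : Odd n := Nat.not_even_iff_odd.1 fun he ↦ h2 (even_iff_two_dvd.1 he)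
  have heven : ∀ p, Even (n.factorization p) := by
    intro p
    obtain ⟨r, hr⟩ := hsq
    have hr0 : r ≠ 0 := by rintro rfl; simp at hr; omega
    rw [hr, Nat.factorization_mul hr0 hr0]
    exact ⟨_, rfl⟩
  have hpo : ∀ p ∈ n.primeFactors, Odd p := fun p hp ↦
    (Nat.prime_of_mem_primeFactors hp).odd_of_ne_two (by
      rintro rfl
      exact h2 (Nat.dvd_of_mem_primeFactors hp))
  set T := n.primeFactors.filter fun p ↦ n.factorization p % 4 = 2 with hT
  -- `τ(n) ≡ 3^#T (mod 4)`
  have hτ : n.divisors.card ≡ 3 ^ T.card [MOD 4] := by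
    rw [card_prod hn.ne', hT, ← prod_const, prod_filter]
    refine Nat.ModEq.prod fun p hp ↦ ?_
    have he := heven p
    rw [Nat.even_iff] at he
    change (n.factorization p + 1) % 4 = _ % 4
    split_ifs with h4
    · omega
    · omega
  by_contra hne
  obtain ⟨r, hr⟩ := Nat.not_odd_iff_even.1 hne
  have h9 : 3 ^ T.card % 4 = 1 := by
    rw [hr, ← two_mul, pow_mul, Nat.pow_mod]
    simp
  have hτ1 : n.divisors.card % 4 = 1 := by
    have h3 : n.divisors.card % 4 = 3 ^ T.card % 4 := hτ
    rw [h3, h9]
  -- the product is `2` modulo `4`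
  have hN : (n * (1 + n.divisors.card)) % 4 = 2 := by
    obtain ⟨j, hj⟩ := hodd
    obtain ⟨i, hi⟩ : ∃ i, 1 + n.divisors.card = 4 * i + 2 := ⟨n.divisors.card / 4, by omega⟩
    rw [hi, hj]
    have : (2 * j + 1) * (4 * i + 2) = 4 * (2 * j * i + i + j) + 2 := by ring
    omega
  rw [← prod_eq hn h] at hN
  rcases Nat.eq_zero_or_pos T.card with h0 | h0
  · -- all factors odd
    have hall : Odd (∏ p ∈ n.primeFactors, G p (n.factorization p)) := by
      refine Finset.prod_induction _ Odd (fun x y hx hy ↦ hx.mul hy) odd_one fun p hp ↦ ?_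
      rw [G_odd_iff (hpo p hp)]
      have h3 : p ∉ T := by
        rw [card_eq_zero.1 h0]
        exact notMem_empty p
      rw [hT, mem_filter, not_and] at h3
      have h4 := h3 hp
      have he := heven p
      rw [Nat.even_iff] at he
      omega
    rw [Nat.odd_iff] at hall
    omega
  · -- two even factors
    have h1 : 1 < T.card := by omega
    obtain ⟨p, hp, q, hq, hpq⟩ := one_lt_card.1 h1
    have hev : ∀ p ∈ T, 2 ∣ G p (n.factorization p) := by
      intro p hp
      rw [hT, mem_filter] at hp
      have h3 : ¬ Odd (G p (n.factorization p)) := by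
        rw [G_odd_iff (hpo p hp.1)]
        omega
      exact even_iff_two_dvd.1 (Nat.not_odd_iff_even.1 h3)
    have hsub : T ⊆ n.primeFactors := filter_subset _ _
    have h4 : 2 * 2 ∣ ∏ p ∈ n.primeFactors, G p (n.factorization p) := by
      rw [← mul_prod_erase _ _ (hsub hp)]
      refine mul_dvd_mul (hev p hp) ?_
      exact (hev q hq).trans (dvd_prod_of_mem (fun p ↦ G p (n.factorization p))
        (mem_erase.2 ⟨hpq.symm, hsub hq⟩))
    omega

end Pool.Agent.Helper91.FP
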