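import Pool.Agent.Helper91.FP.Sqf

/-!
# Squarefree fixed points: restrictions on the number of prime factors
-/

set_option autoImplicit false

namespace Pool.Agent.Helper91.FP

open Finset

/-- The case of five primes, the finite check. -/
theorem five_check : ∀ c0 ∈ [1, 3, 11, 33], ∀ c1 ∈ [1, 3, 11, 33], ∀ c2 ∈ [1, 3, 11, 33],
    ∀ c3 ∈ [1, 3, 11, 33], ∀ c4 ∈ [1, 3, 11, 33], c0 * c1 * c2 * c3 * c4 = 33 →
    (16 + 8 * c0 + 4 * (c0 * c1) + 2 * (c0 * c1 * c2) + c0 * c1 * c2 * c3) % 3 = 0 ∨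
    (16 + 8 * c1 + 4 * (c1 * c2) + 2 * (c1 * c2 * c3) + c1 * c2 * c3 * c4) % 3 = 0 ∨
    (16 + 8 * c2 + 4 * (c2 * c3) + 2 * (c2 * c3 * c4) + c2 * c3 * c4 * c0) % 3 = 0 ∨
    (16 + 8 * c3 + 4 * (c3 * c4) + 2 * (c3 * c4 * c0) + c3 * c4 * c0 * c1) % 3 = 0 ∨
    (16 + 8 * c4 + 4 * (c4 * c0) + 2 * (c4 * c0 * c1) + c4 * c0 * c1 * c2) % 3 = 0 ∨
    (16 + 8 * c0 + 4 * (c0 * c1) + 2 * (c0 * c1 * c2) + c0 * c1 * c2 * c3) % 5 = 0 ∨
    (16 + 8 * c1 + 4 * (c1 * c2) + 2 * (c1 * c2 * c3) + c1 * c2 * c3 * c4) % 5 = 0 ∨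
    (16 + 8 * c2 + 4 * (c2 * c3) + 2 * (c2 * c3 * c4) + c2 * c3 * c4 * c0) % 5 = 0 ∨
    (16 + 8 * c3 + 4 * (c3 * c4) + 2 * (c3 * c4 * c0) + c3 * c4 * c0 * c1) % 5 = 0 ∨
    (16 + 8 * c4 + 4 * (c4 * c0) + 2 * (c4 * c0 * c1) + c4 * c0 * c1 * c2) % 5 = 0 := by
  decide +kernel

theorem dvd33 {c : ℕ} (h : c ∣ 33) : c ∈ [1, 3, 11, 33] := by
  have h1 : c ≤ 33 := Nat.le_of_dvd (by norm_num) h
  interval_cases c <;> revert h <;> decide

theorem not_five {c : ℕ → ℕ} (hc : ∀ i, c (i + 5) = c i) (hp : ∏ i ∈ range 5, c i = 33)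
    (h3 : ∀ i, X 5 c i % 3 ≠ 0) (h5 : ∀ i, X 5 c i % 5 ≠ 0) : False := by
  have e5 : c 5 = c 0 := hc 0
  have e6 : c 6 = c 1 := hc 1
  have e7 : c 7 = c 2 := hc 2
  have hd : ∀ i ∈ range 5, c i ∣ 33 := by
    intro i hi
    rw [← hp]
    exact dvd_prod_of_mem c hi
  have hp' : c 0 * c 1 * c 2 * c 3 * c 4 = 33 := by
    rw [← hp]
    simp [prod_range_succ]
  have x0 : X 5 c 0 = 16 + 8 * c 0 + 4 * (c 0 * c 1) + 2 * (c 0 * c 1 * c 2) +
      c 0 * c 1 * c 2 * c 3 := by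
    simp [X, sum_range_succ, prod_range_succ]
  have x1 : X 5 c 1 = 16 + 8 * c 1 + 4 * (c 1 * c 2) + 2 * (c 1 * c 2 * c 3) +
      c 1 * c 2 * c 3 * c 4 := by
    simp [X, sum_range_succ, prod_range_succ]
  have x2 : X 5 c 2 = 16 + 8 * c 2 + 4 * (c 2 * c 3) + 2 * (c 2 * c 3 * c 4) +
      c 2 * c 3 * c 4 * c 0 := by
    simp [X, sum_range_succ, prod_range_succ, e5]
  have x3 : X 5 c 3 = 16 + 8 * c 3 + 4 * (c 3 * c 4) + 2 * (c 3 * c 4 * c 0) +
      c 3 * c 4 * c 0 * c 1 := by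
    simp [X, sum_range_succ, prod_range_succ, e5, e6]
  have x4 : X 5 c 4 = 16 + 8 * c 4 + 4 * (c 4 * c 0) + 2 * (c 4 * c 0 * c 1) +
      c 4 * c 0 * c 1 * c 2 := by
    simp [X, sum_range_succ, prod_range_succ, e5, e6, e7]
  have h := five_check (c 0) (dvd33 (hd 0 (by simp))) (c 1) (dvd33 (hd 1 (by simp)))
    (c 2) (dvd33 (hd 2 (by simp))) (c 3) (dvd33 (hd 3 (by simp))) (c 4) (dvd33 (hd 4 (by simp))) hp'
  rw [← x0, ← x1, ← x2, ← x3, ← x4] at h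
  rcases h with h | h | h | h | h | h | h | h | h | h
  · exact h3 _ h
  · exact h3 _ h
  · exact h3 _ h
  · exact h3 _ h
  · exact h3 _ h
  · exact h5 _ h
  · exact h5 _ h
  · exact h5 _ h
  · exact h5 _ h
  · exact h5 _ h

/-- Restrictions for squarefree fixed points other than 21. -/
theorem sqf_main {n : ℕ} (hn : 0 < n) (h : a n = n) (h21 : n ≠ 21) (hsf : Squarefree n) :
    Odd n.primeFactors.card ∧ 11 ≤ n.primeFactors.card ∧
      (∃ q, q.Prime ∧ q ∣ 2 ^ n.primeFactors.card + 1 ∧ q % 3 = 2) ∧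
      ∀ m k : ℕ, m = 1 ∨ m = 7 ∨ m = 13 ∨ m = 19 → n.primeFactors.card ≠ m * 3 ^ k := by
  have h3le := three_le hn h h21
  have hn1 : 1 < n := by
    rcases Nat.eq_or_lt_of_le (show 1 ≤ n from hn) with h1 | h1
    · rw [← h1] at h
      simp [a] at h
    · exact h1
  have hsq : ¬ IsSquare n := by
    rintro ⟨r, hr⟩
    have h1 : IsUnit r := hsf r ⟨1, by rw [hr, mul_one]⟩
    rw [Nat.isUnit_iff] at h1
    rw [h1] at hr
    omega
  have h8 : ∀ p, p.Prime → ¬ p ^ 8 ∣ n := by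
    intro p hp hd
    have h1 : IsUnit p := hsf p (dvd_trans ⟨p ^ 6, by ring⟩ hd)
    exact hp.not_isUnit h1
  have hodd := (odd_omega hn h h21 hsq h8).1
  obtain ⟨x, c, hx, hs, hp, himg⟩ := cycle hn1 h hsf
  have hmem : ∀ i, x i ∈ n.primeFactors := by
    intro i
    have h1 : x i = x (i % n.primeFactors.card) :=
      ((show Function.Periodic x n.primeFactors.card from hx).map_mod_nat i).symm
    have h2 : x (i % n.primeFactors.card) ∈ (range n.primeFactors.card).image x :=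
      mem_image_of_mem x (mem_range.2 (Nat.mod_lt i (by omega)))
    rw [← himg] at h2
    rwa [h1]
  have hx3 : ∀ i, ¬ 3 ∣ x i := fun i hd ↦
    h21 (three_dvd hn h (hd.trans (Nat.dvd_of_mem_primeFactors (hmem i))))
  have hex := exists_two_mod (by omega) hodd hx hs hp hx3
  have hnot : ∀ m k : ℕ, m = 1 ∨ m = 7 ∨ m = 13 ∨ m = 19 → n.primeFactors.card ≠ m * 3 ^ k := by
    intro m k hm he
    obtain ⟨q, hq, hqd, hq3⟩ := hex
    rw [he] at hqd
    exact not_small hq hq3 hm (descent' hq hq3 k hqd)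
  refine ⟨hodd, ?_, hex, hnot⟩
  by_contra hlt
  push Not at hlt
  have n3 : n.primeFactors.card ≠ 3 := hnot 1 1 (by simp)
  have n9 : n.primeFactors.card ≠ 9 := hnot 1 2 (by simp)
  have n7 : n.primeFactors.card ≠ 7 := hnot 7 0 (by simp)
  have h5 : n.primeFactors.card = 5 := by
    obtain ⟨r, hr⟩ := hodd
    omega
  have hsize : ∀ i, 16 < x i := by
    intro i
    have := sqf_size h hsf (hmem i)
    rw [h5] at this
    omega
  have hR : 0 < n.primeFactors.card := by omega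
  have hc := c_per hR hx hs
  have hxe := x_eq hR hx hs hp
  rw [h5] at hc hp hxe
  refine not_five (c := c) hc (by rw [hp]; norm_num) (fun i hi ↦ ?_) (fun i hi ↦ ?_)
  · rw [← hxe i] at hi
    exact hx3 i (Nat.dvd_of_mod_eq_zero hi)
  · rw [← hxe i] at hi
    have h1 : 5 ∣ x i := Nat.dvd_of_mod_eq_zero hi
    have h2 := (Nat.prime_dvd_prime_iff_eq Nat.prime_five
      (Nat.prime_of_mem_primeFactors (hmem i))).1 h1
    have := hsize i
    omega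

end Pool.Agent.Helper91.FP
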