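import Pool.Agent.Helper91.FP.PrimePow


/-!
# Fixed points not divisible by the fourth power of a prime are squarefree
-/

set_option autoImplicit false

namespace Pool.Agent.Helper91.FP

open Finset

theorem G_two_even {p : ℕ} (hp : Odd p) : 2 ∣ G p 2 := by
  obtain ⟨t, rfl⟩ := hp
  refine ⟨3 + 8 * t + 6 * t ^ 2, ?_⟩
  simp [G, sum_range_succ]
  ring

theorem three_pow_mod (R : ℕ) : 3 ^ R % 8 = 1 ∨ 3 ^ R % 8 = 3 := by
  induction R with
  | zero => left; norm_num
  | succ R ih =>
    rw [pow_succ]
    omega

/-- A fixed point other than 21 which is not divisible by the fourth power of a prime is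
squarefree. -/
theorem fourth_free {n : ℕ} (hn : 0 < n) (h : a n = n) (h21 : n ≠ 21)
    (h4 : ∀ p, p.Prime → ¬ p ^ 4 ∣ n) : Squarefree n := by
  have hlt : ∀ p ∈ n.primeFactors, n.factorization p < 4 := by
    intro p hp
    have hpp := Nat.prime_of_mem_primeFactors hp
    by_contra hge
    push Not at hge
    exact h4 p hpp ((hpp.pow_dvd_iff_le_factorization hn.ne').2 hge)
  have h2 := not_two_dvd hn h
  have hodd : Odd n := Nat.not_even_iff_odd.1 fun he ↦ h2 (even_iff_two_dvd.1 he)
  by_cases hsq : IsSquare n
  · exfalso
    have h3le := three_le hn h h21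
    have htwo : ∀ p ∈ n.primeFactors, n.factorization p = 2 := by
      intro p hp
      have h5 := hlt p hp
      have h6 := factorization_pos hp
      have he : Even (n.factorization p) := by
        obtain ⟨r, hr⟩ := hsq
        have hr0 : r ≠ 0 := by rintro rfl; simp at hr; omega
        rw [hr, Nat.factorization_mul hr0 hr0]
        exact ⟨_, rfl⟩
      obtain ⟨s, hs⟩ := he
      omega
    have hprod := prod_eq hn h
    have hL : 2 ^ n.primeFactors.card ∣ ∏ p ∈ n.primeFactors, G p (n.factorization p) := by
      rw [← prod_const]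
      refine prod_dvd_prod_of_dvd _ _ fun p hp ↦ ?_
      rw [htwo p hp]
      exact G_two_even ((Nat.prime_of_mem_primeFactors hp).odd_of_ne_two (by
        rintro rfl
        exact h2 (Nat.dvd_of_mem_primeFactors hp)))
    have h8 : 2 ^ 3 ∣ n * (1 + n.divisors.card) := by
      rw [← hprod]
      exact (pow_dvd_pow 2 h3le).trans hL
    have hcop : Nat.Coprime (2 ^ 3) n := Nat.Coprime.pow_left 3 (Nat.coprime_two_left.2 hodd)
    have h9 : 2 ^ 3 ∣ 1 + n.divisors.card := hcop.dvd_of_dvd_mul_left h8
    have h10 : n.divisors.card = 3 ^ n.primeFactors.card := by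
      rw [card_prod hn.ne', ← prod_const]
      exact prod_congr rfl fun p hp ↦ by rw [htwo p hp]
    rw [h10] at h9
    have h11 := three_pow_mod n.primeFactors.card
    omega
  · rw [Nat.squarefree_iff_factorization_le_one hn.ne']
    intro p
    by_cases hp : p ∈ n.primeFactors
    · have h5 := expo_mod hn h hsq p hp
      have h6 := hlt p hp
      omega
    · rw [Finsupp.notMem_support_iff.1 (by rwa [Nat.support_factorization])]
      exact Nat.zero_le _

end Pool.Agent.Helper91.FP
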