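import Pool.Agent.Helper91.FP.Two

/-!
# Fixed points: number of prime factors, exponents
-/

set_option autoImplicit false

namespace Pool.Agent.Helper91.FP

open Finset

/-- If the prime factors are `{p}`, the number is a power of `p`. -/
theorem eq_pow {n p : ℕ} (hn : n ≠ 0) (h : n.primeFactors = {p}) :
    n = p ^ n.factorization p := by
  conv_lhs => rw [← Nat.prod_factorization_pow_eq_self hn]
  rw [Finsupp.prod, Nat.support_factorization, h, prod_singleton]

theorem eq_pow_mul {n p q : ℕ} (hn : n ≠ 0) (hpq : p ≠ q) (h : n.primeFactors = {p, q}) :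
    n = p ^ n.factorization p * q ^ n.factorization q := by
  conv_lhs => rw [← Nat.prod_factorization_pow_eq_self hn]
  rw [Finsupp.prod, Nat.support_factorization, h, prod_pair hpq]

theorem factorization_pos {n p : ℕ} (h : p ∈ n.primeFactors) : 1 ≤ n.factorization p := by
  have hp := Nat.prime_of_mem_primeFactors h
  have hn : n ≠ 0 := (Nat.mem_primeFactors.1 h).2.2
  exact (hp.dvd_iff_one_le_factorization hn).1 (Nat.dvd_of_mem_primeFactors h)

/-- A fixed point with two prime factors is 21. -/
theorem two_primes {p q b c : ℕ} (hp : p.Prime) (hq : q.Prime) (hpq : p < q) (hb : 1 ≤ b)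
    (hc : 1 ≤ c) (h : a (p ^ b * q ^ c) = p ^ b * q ^ c) : p ^ b * q ^ c = 21 := by
  have hne : p ≠ q := hpq.ne
  have hn0 : 0 < p ^ b * q ^ c := Nat.mul_pos (pow_pos hp.pos _) (pow_pos hq.pos _)
  have hp2 : p ≠ 2 := by
    rintro rfl
    exact not_two_dvd hn0 h (Dvd.dvd.mul_right (dvd_pow_self 2 (by omega)) _)
  rcases Nat.eq_or_lt_of_le hc with h1 | h1
  · rw [← h1, pow_one] at h ⊢
    exact expo_one hp hq hne hb h
  · rcases Nat.eq_or_lt_of_le hb with h2 | h2
    · rw [← h2, pow_one, mul_comm] at h ⊢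
      exact expo_one hq hp hne.symm hc h
    · exact (expo_two hp hq hpq hp2 h2 h1 h).elim

/-- A fixed point other than 21 has at least three prime factors. -/
theorem three_le {n : ℕ} (hn : 0 < n) (h : a n = n) (h21 : n ≠ 21) :
    3 ≤ n.primeFactors.card := by
  by_contra hlt
  have hc : n.primeFactors.card = 0 ∨ n.primeFactors.card = 1 ∨ n.primeFactors.card = 2 := by
    omega
  rcases hc with h0 | h1 | h2
  · rw [card_eq_zero, Nat.primeFactors_eq_empty] at h0
    rcases h0 with h0 | h0
    · omega
    · rw [h0] at h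
      simp [a] at h
  · obtain ⟨p, hp⟩ := card_eq_one.1 h1
    have hpm : p ∈ n.primeFactors := by rw [hp]; exact mem_singleton_self p
    have h3 := eq_pow hn.ne' hp
    rw [h3] at h
    exact not_pow (Nat.prime_of_mem_primeFactors hpm) h
  · obtain ⟨p, q, hpq, hs⟩ := card_eq_two.1 h2
    have hpm : p ∈ n.primeFactors := by rw [hs]; simp
    have hqm : q ∈ n.primeFactors := by rw [hs]; simp
    have hpp := Nat.prime_of_mem_primeFactors hpm
    have hqq := Nat.prime_of_mem_primeFactors hqm
    rcases lt_or_gt_of_ne hpq with hlt | hlt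
    · have h3 := eq_pow_mul hn.ne' hpq hs
      apply h21
      rw [h3] at h ⊢
      exact two_primes hpp hqq hlt (factorization_pos hpm) (factorization_pos hqm) h
    · have h3 := eq_pow_mul hn.ne' hpq.symm (by rw [hs, pair_comm])
      apply h21
      rw [h3] at h ⊢
      exact two_primes hqq hpp hlt (factorization_pos hqm) (factorization_pos hpm) h

/-- The size condition at every prime factor. -/
theorem size_all {n p : ℕ} (h : a n = n) (hp : p ∈ n.primeFactors) :
    n.factorization p * (n / p ^ n.factorization p).divisors.card < p := by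
  have hpp := Nat.prime_of_mem_primeFactors hp
  have hn : 0 < n := Nat.pos_of_ne_zero (Nat.mem_primeFactors.1 hp).2.2
  obtain ⟨m, h1, h2, h3⟩ := decomp hn hpp
  rw [← h3]
  have hm0 : 0 < m := Nat.pos_of_ne_zero (by rintro rfl; simp at h2)
  refine size hpp h2 hm0 (factorization_pos hp) ?_
  rw [← h1]
  exact h

/-- The product formula for `F`. -/
theorem F_prod {n : ℕ} (hn : n ≠ 0) :
    F n = ∏ p ∈ n.primeFactors, G p (n.factorization p) := by
  rw [← FA_apply, FA_mult.multiplicative_factorization FA hn, Finsupp.prod,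
    Nat.support_factorization]
  refine prod_congr rfl fun p hp ↦ ?_
  rw [FA_apply, F_pow (Nat.prime_of_mem_primeFactors hp)]

theorem card_prod {n : ℕ} (hn : n ≠ 0) :
    n.divisors.card = ∏ p ∈ n.primeFactors, (n.factorization p + 1) :=
  Nat.card_divisors hn

/-- The fixed point equation as an equation of products. -/
theorem prod_eq {n : ℕ} (hn : 0 < n) (h : a n = n) :
    ∏ p ∈ n.primeFactors, G p (n.factorization p) = n * (1 + n.divisors.card) := by
  rw [← F_prod hn.ne']
  exact (fix_iff hn).1 h

theorem isSquare_of_even {n : ℕ} (hn : n ≠ 0) (h : ∀ p ∈ n.primeFactors, Even (n.factorization p)) :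
    IsSquare n := by
  refine ⟨∏ p ∈ n.primeFactors, p ^ (n.factorization p / 2), ?_⟩
  rw [← prod_mul_distrib]
  conv_lhs => rw [← Nat.prod_factorization_pow_eq_self hn]
  rw [Finsupp.prod, Nat.support_factorization]
  refine prod_congr rfl fun p hp ↦ ?_
  rw [← pow_add]
  obtain ⟨r, hr⟩ := h p hp
  congr 1
  omega

/-- If a fixed point is not a square, every exponent is `0` or `1` modulo `4`. -/
theorem expo_mod {n : ℕ} (hn : 0 < n) (h : a n = n) (hsq : ¬ IsSquare n) :
    ∀ p ∈ n.primeFactors, n.factorization p % 4 = 0 ∨ n.factorization p % 4 = 1 := by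
  have h2 := not_two_dvd hn h
  have hodd : Odd n := Nat.not_even_iff_odd.1 fun he ↦ h2 (even_iff_two_dvd.1 he)
  -- some exponent is odd
  have hex : ∃ q ∈ n.primeFactors, ¬ Even (n.factorization q) := by
    by_contra hno
    push Not at hno
    exact hsq (isSquare_of_even hn.ne' hno)
  obtain ⟨q, hq, hqe⟩ := hex
  have hτ : Even n.divisors.card := by
    rw [card_prod hn.ne']
    have h3 : Even (n.factorization q + 1) := (Nat.not_even_iff_odd.1 hqe).add_odd odd_one
    rw [even_iff_two_dvd] at h3 ⊢
    exact h3.trans (dvd_prod_of_mem _ hq)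
  have hR : Odd (n * (1 + n.divisors.card)) := hodd.mul (odd_one.add_even hτ)
  rw [← prod_eq hn h] at hR
  intro p hp
  have hpp := Nat.prime_of_mem_primeFactors hp
  have hpo : Odd p := hpp.odd_of_ne_two (by
    rintro rfl
    exact h2 (Nat.dvd_of_mem_primeFactors hp))
  have h3 : Odd (G p (n.factorization p)) := by
    rw [← Nat.not_even_iff_odd] at hR ⊢
    intro he
    apply hR
    rw [even_iff_two_dvd] at he ⊢
    exact he.trans (dvd_prod_of_mem (fun p ↦ G p (n.factorization p)) hp)
  exact (G_odd_iff hpo _).1 h3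

theorem G_four_mod (p : ℕ) (hp : ¬ 3 ∣ p) : 3 ∣ G p 4 := by
  have h1 : G p 4 = 1 + 2 * p + 3 * p ^ 2 + 4 * p ^ 3 + 5 * p ^ 4 := by
    simp [G, sum_range_succ]
  have h2 : p % 3 = 1 ∨ p % 3 = 2 := by omega
  rw [h1, Nat.dvd_iff_mod_eq_zero]
  rcases h2 with h | h <;> simp [Nat.add_mod, Nat.mul_mod, Nat.pow_mod, h]

theorem G_five_mod (p : ℕ) (hp : ¬ 3 ∣ p) : 3 ∣ G p 5 := by
  rw [G_succ]
  exact dvd_add (G_four_mod p hp) ⟨2 * p ^ 5, by ring⟩

/-- If a fixed point other than 21 is neither a square nor divisible by an eighth power, the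
number of its prime factors is odd and its exponents are `1` or `4`. -/
theorem odd_omega {n : ℕ} (hn : 0 < n) (h : a n = n) (h21 : n ≠ 21) (hsq : ¬ IsSquare n)
    (h8 : ∀ p, p.Prime → ¬ p ^ 8 ∣ n) :
    Odd n.primeFactors.card ∧
      ∀ p ∈ n.primeFactors, n.factorization p = 1 ∨ n.factorization p = 4 := by
  have h3 : ¬ 3 ∣ n := fun hd ↦ h21 (three_dvd hn h hd)
  have hp3 : ∀ p ∈ n.primeFactors, ¬ 3 ∣ p := fun p hp hd ↦
    h3 (hd.trans (Nat.dvd_of_mem_primeFactors hp))
  have hk : ∀ p ∈ n.primeFactors,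
      n.factorization p = 1 ∨ n.factorization p = 4 ∨ n.factorization p = 5 := by
    intro p hp
    have hpp := Nat.prime_of_mem_primeFactors hp
    have h4 := expo_mod hn h hsq p hp
    have h5 := factorization_pos hp
    have h6 : n.factorization p < 8 := by
      by_contra hge
      push Not at hge
      exact h8 p hpp ((hpp.pow_dvd_iff_le_factorization hn.ne').2 hge)
    omega
  -- the right hand side is divisible by `3`
  have hN : 3 ∣ 1 + n.divisors.card := by
    by_contra hnd
    have hR : ¬ 3 ∣ n * (1 + n.divisors.card) := by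
      rw [Nat.prime_three.dvd_mul]
      exact not_or.2 ⟨h3, hnd⟩
    rw [← prod_eq hn h] at hR
    have hG : ∀ p ∈ n.primeFactors, ¬ 3 ∣ G p (n.factorization p) := fun p hp hd ↦
      hR (hd.trans (dvd_prod_of_mem (fun p ↦ G p (n.factorization p)) hp))
    have hall : ∀ p ∈ n.primeFactors, n.factorization p = 1 := by
      intro p hp
      rcases hk p hp with h4 | h4 | h4
      · exact h4
      · exact absurd (h4 ▸ G_four_mod p (hp3 p hp)) (hG p hp)
      · exact absurd (h4 ▸ G_five_mod p (hp3 p hp)) (hG p hp)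
    have hp2 : ∀ p ∈ n.primeFactors, p % 3 = 2 := by
      intro p hp
      have h4 := hG p hp
      rw [hall p hp] at h4
      have h5 : G p 1 = 1 + 2 * p := by simp [G, sum_range_succ]
      rw [h5] at h4
      have h6 := hp3 p hp
      omega
    have hτ : n.divisors.card = 2 ^ n.primeFactors.card := by
      rw [card_prod hn.ne', prod_congr rfl (fun p hp ↦ by rw [hall p hp]), prod_const]
    have hn' : n = ∏ p ∈ n.primeFactors, p := by
      conv_lhs => rw [← Nat.prod_factorization_pow_eq_self hn.ne']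
      rw [Finsupp.prod, Nat.support_factorization]
      exact prod_congr rfl fun p hp ↦ by rw [hall p hp, pow_one]
    have e1 : n ≡ 2 ^ n.primeFactors.card [MOD 3] := by
      have h4 : (∏ p ∈ n.primeFactors, p) ≡ ∏ p ∈ n.primeFactors, 2 [MOD 3] :=
        Nat.ModEq.prod fun p hp ↦ hp2 p hp
      rw [← hn', prod_const] at h4
      exact h4
    have e2 : (∏ p ∈ n.primeFactors, G p (n.factorization p)) ≡
        2 ^ n.primeFactors.card [MOD 3] := by
      have h4 : (∏ p ∈ n.primeFactors, G p (n.factorization p)) ≡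
          ∏ p ∈ n.primeFactors, 2 [MOD 3] := Nat.ModEq.prod fun p hp ↦ by
        rw [hall p hp]
        have h5 : G p 1 = 1 + 2 * p := by simp [G, sum_range_succ]
        rw [h5]
        have := hp2 p hp
        change (1 + 2 * p) % 3 = 2 % 3
        omega
      rwa [prod_const] at h4
    rw [prod_eq hn h, hτ] at e2
    have e3 : 2 ^ n.primeFactors.card * (1 + 2 ^ n.primeFactors.card) ≡
        2 ^ n.primeFactors.card * 1 [MOD 3] := by
      rw [mul_one]
      exact ((Nat.ModEq.mul_right _ e1).symm).trans e2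
    have hc : Nat.gcd 3 (2 ^ n.primeFactors.card) = 1 :=
      (Nat.Coprime.pow_right _ (by norm_num))
    have e4 := Nat.ModEq.cancel_left_of_coprime hc e3
    have e5 : 3 ∣ 2 ^ n.primeFactors.card := by
      have e6 : 1 + 2 ^ n.primeFactors.card ≡ 1 + 0 [MOD 3] := e4
      exact (Nat.modEq_zero_iff_dvd).1 (Nat.ModEq.add_left_cancel' 1 e6)
    have e6 := Nat.Prime.dvd_of_dvd_pow Nat.prime_three e5
    omega
  have hk' : ∀ p ∈ n.primeFactors, n.factorization p = 1 ∨ n.factorization p = 4 := by
    intro p hp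
    rcases hk p hp with h4 | h4 | h4
    · exact Or.inl h4
    · exact Or.inr h4
    · exfalso
      have h5 : 3 ∣ n.divisors.card := by
        rw [card_prod hn.ne']
        refine Dvd.dvd.trans ?_ (dvd_prod_of_mem (fun p ↦ n.factorization p + 1) hp)
        change 3 ∣ n.factorization p + 1
        rw [h4]
        norm_num
      omega
  refine ⟨?_, hk'⟩
  have hτ : n.divisors.card ≡ 2 ^ n.primeFactors.card [MOD 3] := by
    have h4 : (∏ p ∈ n.primeFactors, (n.factorization p + 1)) ≡
        ∏ p ∈ n.primeFactors, 2 [MOD 3] := Nat.ModEq.prod fun p hp ↦ by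
      rcases hk' p hp with h5 | h5 <;> rw [h5] <;> decide
    rwa [prod_const, ← card_prod hn.ne'] at h4
  by_contra hev
  obtain ⟨r, hr⟩ := Nat.not_odd_iff_even.1 hev
  rw [hr] at hτ
  have h4 : 2 ^ (r + r) % 3 = 1 := by
    have : 2 ^ (r + r) = 4 ^ r := by rw [← two_mul, pow_mul]; norm_num
    rw [this, Nat.pow_mod]
    simp
  have h5 : n.divisors.card % 3 = 1 := by
    have h6 : n.divisors.card % 3 = 2 ^ (r + r) % 3 := hτ
    rw [h6, h4]
  omega

end Pool.Agent.Helper91.FP
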