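import Pool.Agent.Helper91.FP.Final

/-!
# Squarefree fixed points: the number of prime factors is not a prime power
-/

set_option autoImplicit false

namespace Pool.Agent.Helper91.FP

open Finset

/-- A number all of whose prime factors are `1` modulo `M` is `1` modulo `M`. -/
theorem mod_one_of_primes {M : ℕ} (hM : 1 < M) (N : ℕ) (hN : 0 < N)
    (h : ∀ q, q.Prime → q ∣ N → q % M = 1) : N % M = 1 := by
  induction N using Nat.strong_induction_on with
  | _ N ih =>
    by_cases h1 : N = 1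
    · rw [h1]; exact Nat.mod_eq_of_lt hM
    · have hp := Nat.minFac_prime h1
      obtain ⟨d, hd⟩ := Nat.minFac_dvd N
      have hd0 : 0 < d := by
        rcases Nat.eq_zero_or_pos d with h0 | h0
        · rw [h0, mul_zero] at hd; omega
        · exact h0
      have hlt : d < N := by
        have h2 : 2 ≤ N.minFac := hp.two_le
        nlinarith
      have h3 : d % M = 1 := ih d hlt hd0 fun q hq hqd ↦
        h q hq (hqd.trans ⟨N.minFac, by rw [mul_comm]; exact hd⟩)
      have h4 : N.minFac % M = 1 := h _ hp (Nat.minFac_dvd N)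
      rw [hd, Nat.mul_mod, h3, h4, mul_one]
      exact Nat.mod_eq_of_lt hM

theorem cast_one_of_mod {r a : ℕ} (h : a % r = 1) : ((a : ℕ) : ZMod r) = 1 := by
  have h1 : ((a % r : ℕ) : ZMod r) = (a : ZMod r) := ZMod.natCast_mod a r
  rw [← h1, h, Nat.cast_one]

/-- Not all prime factors of `(2^R+1)/3` are `1` modulo a prime `r > 3`. -/
theorem core {x c : ℕ → ℕ} {R r : ℕ} (hR2 : 2 ≤ R) (hodd : Odd R) (hr : r.Prime) (hr3 : 3 < r)
    (hx : ∀ i, x (i + R) = x i) (hs : ∀ i, c i * x (i + 1) = 2 * x i + 1)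
    (hp : ∏ i ∈ range R, c i = 2 ^ R + 1) (hxp : ∀ i, (x i).Prime)
    (hbig : ∀ i, 2 ^ (R - 1) ≤ x i)
    (hN : ∀ q, q.Prime → q ∣ (2 ^ R + 1) / 3 → q % r = 1) : False := by
  have hR : 0 < R := by omega
  have : Fact r.Prime := ⟨hr⟩
  have hcper := c_per hR hx hs
  obtain ⟨N, hNe⟩ : 3 ∣ 2 ^ R + 1 := Nat.dvd_of_mod_eq_zero (two_pow_odd hodd)
  have hN3 : (2 ^ R + 1) / 3 = N := by omega
  rw [hN3] at hN
  have hN0 : 0 < N := by
    rcases Nat.eq_zero_or_pos N with h0 | h0
    · rw [h0, mul_zero] at hNe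
      exact absurd hNe (Nat.succ_ne_zero _)
    · exact h0
  have h3d : 3 ∣ ∏ i ∈ range R, c i := by rw [hp, hNe]; exact dvd_mul_right 3 N
  obtain ⟨e, heR, he⟩ := Nat.prime_three.prime.exists_mem_finset_dvd h3d
  obtain ⟨c', hc'⟩ := he
  have hsplit : c' * ∏ i ∈ (range R).erase e, c i = N := by
    have h1 := mul_prod_erase (range R) c heR
    rw [hp, hNe, hc', mul_assoc] at h1
    exact Nat.eq_of_mul_eq_mul_left (by norm_num) h1
  have hone : ∀ d, d ∣ N → ((d : ℕ) : ZMod r) = 1 := by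
    intro d hd
    exact cast_one_of_mod (mod_one_of_primes (by omega) d (Nat.pos_of_dvd_of_pos hd hN0)
      fun q hq hqd ↦ hN q hq (hqd.trans hd))
  have hcone : ∀ i ∈ range R, i ≠ e → ((c i : ℕ) : ZMod r) = 1 := by
    intro i hi hie
    refine hone _ (dvd_trans (dvd_prod_of_mem c (mem_erase.2 ⟨hie, hi⟩)) ?_)
    rw [← hsplit]
    exact dvd_mul_left _ _
  have hce : ((c e : ℕ) : ZMod r) = 3 := by
    rw [hc']
    push_cast
    rw [hone c' (by rw [← hsplit]; exact dvd_mul_right _ _), mul_one]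
  have heR' := mem_range.1 heR
  have hcone' : ∀ k, k + 1 < R → ((c (e + 1 + k) : ℕ) : ZMod r) = 1 := by
    intro k hk
    have h1 : c (e + 1 + k) = c ((e + 1 + k) % R) :=
      ((show Function.Periodic c R from hcper).map_mod_nat _).symm
    rw [h1]
    refine hcone _ (mem_range.2 (Nat.mod_lt _ hR)) ?_
    intro h2
    rcases Nat.lt_or_ge (e + 1 + k) R with h3 | h3
    · rw [Nat.mod_eq_of_lt h3] at h2; omega
    · rw [Nat.mod_eq_sub_mod h3, Nat.mod_eq_of_lt (by omega)] at h2; omega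
  -- the powers of `2`
  have hpowR : (2 : ZMod r) ^ R = 2 := by
    have h1 : ((2 ^ R + 1 : ℕ) : ZMod r) = ((3 * N : ℕ) : ZMod r) := by rw [hNe]
    push_cast at h1
    rw [hone N dvd_rfl] at h1
    linear_combination h1
  have h20 : (2 : ZMod r) ≠ 0 := by
    intro h0
    have h1 : ((2 : ℕ) : ZMod r) = 0 := by exact_mod_cast h0
    have h2 := Nat.le_of_dvd (by norm_num) ((ZMod.natCast_eq_zero_iff _ _).1 h1)
    omega
  have hpow1 : (2 : ZMod r) ^ (R - 1) = 1 := by
    have h1 : (2 : ZMod r) ^ R = 2 ^ (R - 1) * 2 := by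
      rw [← pow_succ]; congr 1; omega
    rw [h1] at hpowR
    exact mul_right_cancel₀ h20 (by rw [hpowR, one_mul])
  have hstep : ∀ k, k + 1 < R →
      ((x (e + 1 + (k + 1)) : ℕ) : ZMod r) + 1 = 2 * (((x (e + 1 + k) : ℕ) : ZMod r) + 1) := by
    intro k hk
    have h1 := hs (e + 1 + k)
    have h2 : ((c (e + 1 + k) * x (e + 1 + k + 1) : ℕ) : ZMod r) =
        ((2 * x (e + 1 + k) + 1 : ℕ) : ZMod r) := by rw [h1]
    push_cast at h2
    rw [hcone' k hk, one_mul] at h2
    have h3 : e + 1 + (k + 1) = e + 1 + k + 1 := by ring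
    rw [h3, h2]
    ring
  have hit : ∀ k, k + 1 ≤ R →
      ((x (e + 1 + k) : ℕ) : ZMod r) + 1 = 2 ^ k * (((x (e + 1) : ℕ) : ZMod r) + 1) := by
    intro k
    induction k with
    | zero => intro _; simp
    | succ k ih =>
      intro hk
      rw [hstep k (by omega), ih (by omega)]
      ring
  have hA : ((x e : ℕ) : ZMod r) + 1 = ((x (e + 1) : ℕ) : ZMod r) + 1 := by
    have h1 := hit (R - 1) (by omega)
    have h2 : e + 1 + (R - 1) = e + R := by omega
    rw [h2, hx, hpow1, one_mul] at h1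
    exact h1
  have hB : 3 * ((x (e + 1) : ℕ) : ZMod r) = 2 * ((x e : ℕ) : ZMod r) + 1 := by
    have h1 : ((c e * x (e + 1) : ℕ) : ZMod r) = ((2 * x e + 1 : ℕ) : ZMod r) := by rw [hs e]
    push_cast at h1
    rwa [hce] at h1
  have hu : ((x (e + 1) : ℕ) : ZMod r) = 1 := by linear_combination hB + 2 * hA
  have hC := hit (R - 2) (by omega)
  have hzero : ((x (e + 1 + (R - 2)) : ℕ) : ZMod r) = 0 := by
    rw [hu] at hC
    have h1 : (2 : ZMod r) ^ (R - 1) = 2 ^ (R - 2) * 2 := by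
      rw [← pow_succ]; congr 1; omega
    rw [h1] at hpow1
    linear_combination hC + hpow1
  have hdvd := (ZMod.natCast_eq_zero_iff _ _).1 hzero
  have heq := (Nat.prime_dvd_prime_iff_eq hr (hxp _)).1 hdvd
  have hle : 2 ^ (R - 1) ≤ r := by rw [heq]; exact hbig _
  have hd1 : r ∣ 2 ^ (R - 1) - 1 := by
    rw [← ZMod.natCast_eq_zero_iff, Nat.cast_sub Nat.one_le_two_pow]
    push_cast
    rw [hpow1, sub_self]
  have h4 : 4 ≤ 2 ^ (R - 1) := by
    have : 2 ≤ R - 1 := by
      obtain ⟨t, ht⟩ := hodd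
      omega
    calc 4 = 2 ^ 2 := by norm_num
      _ ≤ _ := Nat.pow_le_pow_right (by norm_num) this
  have := Nat.le_of_dvd (by omega) hd1
  omega

theorem nine_mod {R : ℕ} (hodd : Odd R) : 9 ∣ 2 ^ R + 1 ↔ 3 ∣ R := by
  obtain ⟨t, rfl⟩ := hodd
  have key : ∀ s : ℕ, (2 ^ (2 * s + 1) + 1) % 9 = (2 ^ (2 * (s % 3) + 1) + 1) % 9 := by
    intro s
    conv_lhs => rw [← Nat.div_add_mod s 3]
    have h1 : 2 * (3 * (s / 3) + s % 3) + 1 = 6 * (s / 3) + (2 * (s % 3) + 1) := by ring
    rw [h1, pow_add, pow_mul, Nat.add_mod, Nat.mul_mod, Nat.pow_mod]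
    norm_num
  rw [Nat.dvd_iff_mod_eq_zero, key]
  have h3 : t % 3 < 3 := Nat.mod_lt _ (by norm_num)
  interval_cases h : t % 3
  · norm_num; omega
  · norm_num; omega
  · norm_num; omega

/-- The families excluded. -/
theorem family {R m k r : ℕ} (hodd : Odd R) (hr : r.Prime) (hr3 : 3 < r) (hR : R = m * r ^ k)
    (hm : ∀ q, q.Prime → q ∣ (2 ^ m + 1) / 3 → q % r = 1) :
    ∀ q, q.Prime → q ∣ (2 ^ R + 1) / 3 → q % r = 1 := by
  intro q hq hqd
  have : Fact q.Prime := ⟨hq⟩
  have hmodd : Odd m := by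
    rw [hR] at hodd
    exact (Nat.odd_mul.1 hodd).1
  obtain ⟨N, hNe⟩ : 3 ∣ 2 ^ R + 1 := Nat.dvd_of_mod_eq_zero (two_pow_odd hodd)
  have hN3 : (2 ^ R + 1) / 3 = N := by omega
  obtain ⟨L, hLe⟩ : 3 ∣ 2 ^ m + 1 := Nat.dvd_of_mod_eq_zero (two_pow_odd hmodd)
  have hL3 : (2 ^ m + 1) / 3 = L := by omega
  rw [hN3] at hqd
  rw [hL3] at hm
  have hqR : q ∣ 2 ^ R + 1 := by rw [hNe]; exact dvd_mul_of_dvd_right hqd 3
  have hR1 : (2 : ZMod q) ^ R = -1 := by
    have h1 : ((2 ^ R + 1 : ℕ) : ZMod q) = 0 := (ZMod.natCast_eq_zero_iff _ _).2 hqR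
    push_cast at h1
    linear_combination h1
  have hRpos : 0 < R := hodd.pos
  have hq2 : q ≠ 2 := by
    rintro rfl
    have h1 : 2 ∣ 2 ^ R := dvd_pow_self 2 hRpos.ne'
    omega
  have h20 : (2 : ZMod q) ≠ 0 := by
    intro h0
    have h1 : ((2 : ℕ) : ZMod q) = 0 := by exact_mod_cast h0
    have h2 := (Nat.prime_dvd_prime_iff_eq hq Nat.prime_two).1 ((ZMod.natCast_eq_zero_iff _ _).1 h1)
    exact hq2 h2
  have hd1 : orderOf (2 : ZMod q) ∣ 2 * R := by
    refine orderOf_dvd_of_pow_eq_one ?_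
    rw [mul_comm, pow_mul, hR1]
    norm_num
  by_cases hrd : r ∣ orderOf (2 : ZMod q)
  · have h1 : r ∣ q - 1 := hrd.trans (ZMod.orderOf_dvd_card_sub_one h20)
    obtain ⟨t, ht⟩ := h1
    have h2 : q = 1 + r * t := by have := hq.two_le; omega
    rw [h2, Nat.add_mul_mod_self_left]
    exact Nat.mod_eq_of_lt (by omega)
  · have hcop : Nat.Coprime (orderOf (2 : ZMod q)) (r ^ k) :=
      Nat.Coprime.pow_right k ((Nat.Prime.coprime_iff_not_dvd hr).2 hrd).symm
    have h1 : orderOf (2 : ZMod q) ∣ (2 * m) * r ^ k := by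
      rw [mul_assoc, ← hR]; exact hd1
    have h2 : orderOf (2 : ZMod q) ∣ 2 * m := hcop.dvd_of_dvd_mul_right h1
    have h3 : ((2 : ZMod q) ^ m) ^ 2 = 1 := by
      rw [← pow_mul, mul_comm m 2]
      exact orderOf_dvd_iff_pow_eq_one.1 h2
    have h4 : (2 : ZMod q) ^ m ≠ 1 := by
      intro h5
      have h6 : (2 : ZMod q) ^ R = 1 := by rw [hR, pow_mul, h5, one_pow]
      rw [hR1] at h6
      exact h20 (by linear_combination -h6)
    have h5 : (2 : ZMod q) ^ m = -1 := (sq_eq_one_iff.1 h3).resolve_left h4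
    have h6 : q ∣ 2 ^ m + 1 := by
      rw [← ZMod.natCast_eq_zero_iff]
      push_cast
      rw [h5]; ring
    by_cases hq3 : q = 3
    · exfalso
      rw [hq3] at hqd
      have h7 : 9 ∣ 2 ^ R + 1 := by
        rw [hNe]
        exact Nat.mul_dvd_mul_left 3 hqd
      have h8 : 3 ∣ m * r ^ k := by rw [← hR]; exact (nine_mod hodd).1 h7
      have h9 : 3 ∣ m := by
        rcases Nat.prime_three.dvd_mul.1 h8 with h | h
        · exact h
        · have := (Nat.prime_dvd_prime_iff_eq Nat.prime_three hr).1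
            (Nat.prime_three.dvd_of_dvd_pow h)
          omega
      have h10 : 9 ∣ 2 ^ m + 1 := (nine_mod hmodd).2 h9
      have h11 : 3 ∣ L := by
        rw [hLe] at h10
        exact Nat.dvd_of_mul_dvd_mul_left (by norm_num : 0 < 3) h10
      have h12 := hm 3 Nat.prime_three h11
      rw [Nat.mod_eq_of_lt hr3] at h12
      omega
    · rw [hLe] at h6
      rcases hq.dvd_mul.1 h6 with h | h
      · exact absurd ((Nat.prime_dvd_prime_iff_eq hq Nat.prime_three).1 h) hq3
      · exact hm q hq h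

/-- Explicit families. -/
theorem families_ok : (∀ q, q.Prime → q ∣ (2 ^ 13 + 1) / 3 → q % 5 = 1) ∧
    (∀ q, q.Prime → q ∣ (2 ^ 17 + 1) / 3 → q % 5 = 1) ∧
    (∀ q, q.Prime → q ∣ (2 ^ 13 + 1) / 3 → q % 7 = 1) ∧
    (∀ q, q.Prime → q ∣ (2 ^ 19 + 1) / 3 → q % 7 = 1) ∧
    (∀ q, q.Prime → q ∣ (2 ^ 11 + 1) / 3 → q % 31 = 1) := by
  refine ⟨fun q hq hd ↦ ?_, fun q hq hd ↦ ?_, fun q hq hd ↦ ?_, fun q hq hd ↦ ?_, fun q hq hd ↦ ?_⟩
  · have h1 : q ∣ 2731 := by simpa using hd
    rw [(Nat.prime_dvd_prime_iff_eq hq (by norm_num)).1 h1]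
  · have h1 : q ∣ 43691 := by simpa using hd
    rw [(Nat.prime_dvd_prime_iff_eq hq (by norm_num)).1 h1]
  · have h1 : q ∣ 2731 := by simpa using hd
    rw [(Nat.prime_dvd_prime_iff_eq hq (by norm_num)).1 h1]
  · have h1 : q ∣ 174763 := by simpa using hd
    rw [(Nat.prime_dvd_prime_iff_eq hq (by norm_num)).1 h1]
  · have h1 : q ∣ 683 := by simpa using hd
    rw [(Nat.prime_dvd_prime_iff_eq hq (by norm_num)).1 h1]

/-- Squarefree fixed points: the restrictions on the number `R` of prime factors. -/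
theorem sqf_main2 {n : ℕ} (hn : 0 < n) (h : a n = n) (h21 : n ≠ 21) (hsf : Squarefree n) :
    Odd n.primeFactors.card ∧ 15 ≤ n.primeFactors.card ∧ ¬ IsPrimePow n.primeFactors.card ∧
      (∃ q, q.Prime ∧ q ∣ 2 ^ n.primeFactors.card + 1 ∧ q % 3 = 2) ∧
      (∀ M : ℕ, 3 ≤ M → ∃ q, q.Prime ∧ q ∣ (2 ^ n.primeFactors.card + 1) / 3 ∧ q % M ≠ 1) ∧
      (∀ m k r : ℕ, Odd m → r.Prime → 3 < r →
        (∀ q, q.Prime → q ∣ (2 ^ m + 1) / 3 → q % r = 1) → n.primeFactors.card ≠ m * r ^ k) ∧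
      (∀ m k : ℕ, Odd m → (∀ q, q.Prime → q ∣ 2 ^ m + 1 → q % 3 ≠ 2) →
        n.primeFactors.card ≠ m * 3 ^ k) ∧
      ∀ k : ℕ, n.primeFactors.card ≠ 7 * 3 ^ k ∧ n.primeFactors.card ≠ 13 * 3 ^ k ∧
        n.primeFactors.card ≠ 19 * 3 ^ k ∧ n.primeFactors.card ≠ 13 * 5 ^ k ∧
        n.primeFactors.card ≠ 17 * 5 ^ k ∧ n.primeFactors.card ≠ 13 * 7 ^ k ∧
        n.primeFactors.card ≠ 19 * 7 ^ k ∧ n.primeFactors.card ≠ 11 * 31 ^ k := by
  obtain ⟨hodd, h11, hex, hnot⟩ := sqf_main hn h h21 hsf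
  have hn1 : 1 < n := by
    rcases Nat.eq_or_lt_of_le (show 1 ≤ n from hn) with h1 | h1
    · rw [← h1] at h
      simp [a] at h
    · exact h1
  obtain ⟨x, c, hx, hs, hp, himg⟩ := cycle hn1 h hsf
  have hmem : ∀ i, x i ∈ n.primeFactors := by
    intro i
    have h1 : x i = x (i % n.primeFactors.card) :=
      ((show Function.Periodic x n.primeFactors.card from hx).map_mod_nat i).symm
    have h2 : x (i % n.primeFactors.card) ∈ (range n.primeFactors.card).image x :=
      mem_image_of_mem x (mem_range.2 (Nat.mod_lt i (by omega)))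
    rw [← himg] at h2
    rwa [h1]
  have hbig : ∀ i, 2 ^ (n.primeFactors.card - 1) ≤ x i := by
    intro i
    have h1 := sqf_size h hsf (hmem i)
    have h2 : 2 ^ n.primeFactors.card = 2 ^ (n.primeFactors.card - 1) * 2 := by
      rw [← pow_succ]; congr 1; omega
    rw [h2] at h1
    omega
  have hcore : ∀ r : ℕ, r.Prime → 3 < r →
      ¬ ∀ q, q.Prime → q ∣ (2 ^ n.primeFactors.card + 1) / 3 → q % r = 1 :=
    fun r hr hr3 hN ↦ core (by omega) hodd hr hr3 hx hs hp
      (fun i ↦ Nat.prime_of_mem_primeFactors (hmem i)) hbig hN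
  have hfam : ∀ m k r : ℕ, Odd m → r.Prime → 3 < r →
      (∀ q, q.Prime → q ∣ (2 ^ m + 1) / 3 → q % r = 1) → n.primeFactors.card ≠ m * r ^ k :=
    fun m k r _ hr hr3 hm hR ↦ hcore r hr hr3 (family hodd hr hr3 hR hm)
  have hfam3 : ∀ m k : ℕ, Odd m → (∀ q, q.Prime → q ∣ 2 ^ m + 1 → q % 3 ≠ 2) →
      n.primeFactors.card ≠ m * 3 ^ k := by
    intro m k _ hm he
    obtain ⟨q, hq, hqd, hq3⟩ := hex
    rw [he] at hqd
    exact hm q hq (descent' hq hq3 k hqd) hq3
  have hpp : ¬ IsPrimePow n.primeFactors.card := by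
    rw [isPrimePow_nat_iff]
    rintro ⟨p, k, hpr, hk, he⟩
    rcases Nat.lt_or_ge 3 p with h3 | h3
    · refine hfam 1 k p odd_one hpr h3 (fun q hq hqd ↦ ?_) (by rw [one_mul, he])
      exact absurd (by simpa using hqd) hq.one_lt.ne'
    · have h2 := hpr.two_le
      have h4 : p = 2 ∨ p = 3 := by omega
      rcases h4 with rfl | rfl
      · rw [← he] at hodd
        exact (Nat.not_odd_iff_even.2 (Even.pow_of_ne_zero even_two hk.ne')) hodd
      · exact hnot 1 k (Or.inl rfl) (by rw [one_mul, he])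
  refine ⟨hodd, ?_, hpp, hex, ?_, hfam, hfam3, fun k ↦ ⟨hnot 7 k (by simp), hnot 13 k (by simp),
    hnot 19 k (by simp),
    hfam 13 k 5 (by decide) (by norm_num) (by norm_num) families_ok.1,
    hfam 17 k 5 (by decide) (by norm_num) (by norm_num) families_ok.2.1,
    hfam 13 k 7 (by decide) (by norm_num) (by norm_num) families_ok.2.2.1,
    hfam 19 k 7 (by decide) (by norm_num) (by norm_num) families_ok.2.2.2.1,
    hfam 11 k 31 (by decide) (by norm_num) (by norm_num) families_ok.2.2.2.2⟩⟩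
  · by_contra hlt
    push Not at hlt
    have h1 : n.primeFactors.card = 11 ∨ n.primeFactors.card = 13 := by
      obtain ⟨t, ht⟩ := hodd
      omega
    rcases h1 with h1 | h1
    · rw [h1] at hpp
      exact hpp (Nat.Prime.isPrimePow (by norm_num))
    · rw [h1] at hpp
      exact hpp (Nat.Prime.isPrimePow (by norm_num))
  · intro M hM
    by_contra hno
    push Not at hno
    obtain ⟨N, hNe⟩ : 3 ∣ 2 ^ n.primeFactors.card + 1 :=
      Nat.dvd_of_mod_eq_zero (two_pow_odd hodd)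
    have hN3 : (2 ^ n.primeFactors.card + 1) / 3 = N := by omega
    by_cases hr : ∃ r, r.Prime ∧ 3 < r ∧ r ∣ M
    · obtain ⟨r, hr, hr3, hrM⟩ := hr
      refine hcore r hr hr3 fun q hq hqd ↦ ?_
      have h1 := hno q hq hqd
      rw [← Nat.mod_mod_of_dvd q hrM, h1]
      exact Nat.mod_eq_of_lt (by omega)
    · by_cases h3 : 3 ∣ M
      · obtain ⟨q, hq, hqd, hq2⟩ := hex
        rw [hNe] at hqd
        have h5 : q ∣ N := by
          rcases hq.dvd_mul.1 hqd with h6 | h6
          · have := (Nat.prime_dvd_prime_iff_eq hq Nat.prime_three).1 h6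
            omega
          · exact h6
        have h1 := hno q hq (by rw [hN3]; exact h5)
        have h7 := Nat.mod_mod_of_dvd q h3
        rw [h1] at h7
        omega
      · have h2 : M = 2 ^ M.primeFactorsList.length := by
          refine Nat.eq_prime_pow_of_unique_prime_dvd (by omega) ?_
          intro d hd hdM
          by_contra hd2
          have h5 := hd.two_le
          rcases Nat.lt_or_ge 3 d with h6 | h6
          · exact hr ⟨d, hd, h6, hdM⟩
          · have h7 : d = 3 := by omega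
            rw [h7] at hdM
            exact h3 hdM
        have h4 : 4 ∣ M := by
          have h5 : 2 ≤ M.primeFactorsList.length := by
            by_contra h6
            push Not at h6
            have h7 : M.primeFactorsList.length = 0 ∨ M.primeFactorsList.length = 1 := by omega
            rcases h7 with h7 | h7
            · rw [h7] at h2; omega
            · rw [h7] at h2; omega
          rw [h2]
          exact pow_dvd_pow 2 h5
        have h5 : N % 4 = 1 := by
          refine mod_one_of_primes (by norm_num) N ?_ fun q hq hqd ↦ ?_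
          · rcases Nat.eq_zero_or_pos N with h0 | h0
            · rw [h0, mul_zero] at hNe
              exact absurd hNe (Nat.succ_ne_zero _)
            · exact h0
          · have h1 := hno q hq (by rw [hN3]; exact hqd)
            rw [← Nat.mod_mod_of_dvd q h4, h1]
        have h6 : (2 ^ n.primeFactors.card) % 4 = 0 := by
          obtain ⟨t, ht⟩ : ∃ t, n.primeFactors.card = t + 2 := ⟨_, (Nat.sub_add_cancel (by omega)).symm⟩
          rw [ht, pow_add]
          norm_num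
        omega

end Pool.Agent.Helper91.FP
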