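import Pool.Agent.Helper91.FP.Cycle

/-!
# Squarefree fixed points: classification by the factorisations of `2^R + 1`, restrictions on `R`
-/

set_option autoImplicit false

namespace Pool.Agent.Helper91.FP

open Finset

/-- The numbers attached to a sequence of cofactors. -/
def X (R : ℕ) (c : ℕ → ℕ) (i : ℕ) : ℕ :=
  ∑ j ∈ range R, 2 ^ (R - 1 - j) * ∏ l ∈ range j, c (i + l)

theorem iter {x c : ℕ → ℕ} (hs : ∀ i, c i * x (i + 1) = 2 * x i + 1) (i k : ℕ) :
    (∏ l ∈ range k, c (i + l)) * x (i + k) = 2 ^ k * x i + X k c i := by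
  induction k with
  | zero => simp [X]
  | succ k ih =>
    have h1 : (∏ l ∈ range (k + 1), c (i + l)) * x (i + (k + 1)) =
        (∏ l ∈ range k, c (i + l)) * (2 * x (i + k) + 1) := by
      rw [prod_range_succ, ← hs (i + k)]
      ring_nf
    have h2 : X (k + 1) c i = 2 * X k c i + ∏ l ∈ range k, c (i + l) := by
      unfold X
      rw [sum_range_succ, mul_sum]
      congr 1
      · refine sum_congr rfl fun j hj ↦ ?_
        have hj' := mem_range.1 hj
        have h3 : k + 1 - 1 - j = (k - 1 - j) + 1 := by omega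
        rw [h3, pow_succ]
        ring
      · have h3 : k + 1 - 1 - k = 0 := by omega
        rw [h3, pow_zero, one_mul]
    rw [h1, h2]
    calc (∏ l ∈ range k, c (i + l)) * (2 * x (i + k) + 1)
        = 2 * ((∏ l ∈ range k, c (i + l)) * x (i + k)) + ∏ l ∈ range k, c (i + l) := by ring
      _ = _ := by rw [ih]; ring

/-- The product over a window of a periodic sequence. -/
theorem window {R : ℕ} {c : ℕ → ℕ} (hc : ∀ i, c (i + R) = c i) (hR : ∀ i, 0 < c i) (i : ℕ) :
    ∏ l ∈ range R, c (i + l) = ∏ l ∈ range R, c l := by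
  induction i with
  | zero => simp
  | succ i ih =>
    rw [← ih]
    have h1 : (∏ l ∈ range R, c (i + 1 + l)) * c i = (∏ l ∈ range R, c (i + l)) * c (i + R) := by
      have h2 : ∏ l ∈ range (R + 1), c (i + l) = (∏ l ∈ range R, c (i + 1 + l)) * c i := by
        rw [prod_range_succ', add_zero]
        congr 1
        exact prod_congr rfl fun l _ ↦ by congr 1; ring
      rw [← h2, prod_range_succ]
    rw [hc] at h1
    exact Nat.eq_of_mul_eq_mul_right (hR i) h1

theorem c_pos {x c : ℕ → ℕ} (hs : ∀ i, c i * x (i + 1) = 2 * x i + 1) (i : ℕ) : 0 < c i := by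
  rcases Nat.eq_zero_or_pos (c i) with h | h
  · have := hs i
    rw [h, zero_mul] at this
    omega
  · exact h

theorem x_pos {x c : ℕ → ℕ} {R : ℕ} (hR : 0 < R) (hx : ∀ i, x (i + R) = x i)
    (hs : ∀ i, c i * x (i + 1) = 2 * x i + 1) (i : ℕ) : 0 < x i := by
  rcases Nat.eq_zero_or_pos (x i) with h | h
  · have h1 := hs (i + R - 1)
    have h2 : i + R - 1 + 1 = i + R := by omega
    rw [h2, hx, h, mul_zero] at h1
    omega
  · exact h

theorem c_per {x c : ℕ → ℕ} {R : ℕ} (hR : 0 < R) (hx : ∀ i, x (i + R) = x i)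
    (hs : ∀ i, c i * x (i + 1) = 2 * x i + 1) (i : ℕ) : c (i + R) = c i := by
  have h1 := hs (i + R)
  have h2 : x (i + R + 1) = x (i + 1) := by
    have : i + R + 1 = i + 1 + R := by ring
    rw [this, hx]
  rw [h2, hx, ← hs i] at h1
  exact Nat.eq_of_mul_eq_mul_right (x_pos hR hx hs (i + 1)) h1

theorem x_eq {x c : ℕ → ℕ} {R : ℕ} (hR : 0 < R) (hx : ∀ i, x (i + R) = x i)
    (hs : ∀ i, c i * x (i + 1) = 2 * x i + 1) (hp : ∏ i ∈ range R, c i = 2 ^ R + 1) (i : ℕ) :
    x i = X R c i := by
  have h1 := iter hs i R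
  rw [window (c_per hR hx hs) (c_pos hs), hp, hx] at h1
  have h2 : (2 ^ R + 1) * x i = 2 ^ R * x i + x i := by ring
  omega

/-- The recurrence for the explicit numbers. -/
theorem X_rec {R : ℕ} {c : ℕ → ℕ} (hR : 0 < R) (hc : ∀ i, c (i + R) = c i)
    (hp : ∏ i ∈ range R, c i = 2 ^ R + 1) (i : ℕ) : c i * X R c (i + 1) = 2 * X R c i + 1 := by
  have hcp : ∀ i, 0 < c i := by
    intro i
    have h1 : c i = c (i % R) :=
      ((show Function.Periodic c R from hc).map_mod_nat i).symm
    rw [h1]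
    rcases Nat.eq_zero_or_pos (c (i % R)) with h0 | h0
    · have h2 : c (i % R) ∣ ∏ i ∈ range R, c i :=
        dvd_prod_of_mem c (mem_range.2 (Nat.mod_lt i hR))
      rw [hp, h0, zero_dvd_iff] at h2
      exact absurd h2 (by positivity)
    · exact h0
  have hw := window hc hcp i
  rw [hp] at hw
  obtain ⟨r, rfl⟩ : ∃ r, R = r + 1 := ⟨R - 1, by omega⟩
  have e1 : ∀ j, c i * ∏ l ∈ range j, c (i + 1 + l) = ∏ l ∈ range (j + 1), c (i + l) := by
    intro j
    rw [prod_range_succ', add_zero, mul_comm]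
    congr 1
    exact prod_congr rfl fun l _ ↦ by congr 1; ring
  have e2 : c i * X (r + 1) c (i + 1) =
      ∑ j ∈ range (r + 1), 2 ^ (r - j) * ∏ l ∈ range (j + 1), c (i + l) := by
    unfold X
    rw [mul_sum]
    refine sum_congr rfl fun j _ ↦ ?_
    rw [← e1]
    have : r + 1 - 1 - j = r - j := by omega
    rw [this]
    ring
  have e3 : 2 * X (r + 1) c i = ∑ j ∈ range (r + 1), 2 ^ (r + 1 - j) * ∏ l ∈ range j, c (i + l) := by
    unfold X
    rw [mul_sum]
    refine sum_congr rfl fun j hj ↦ ?_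
    have hj' := mem_range.1 hj
    have h3 : r + 1 - j = (r + 1 - 1 - j) + 1 := by omega
    rw [h3, pow_succ]
    ring
  rw [e2, e3, sum_range_succ, hw, sum_range_succ']
  have e4 : ∑ j ∈ range r, 2 ^ (r + 1 - (j + 1)) * ∏ l ∈ range (j + 1), c (i + l) =
      ∑ j ∈ range r, 2 ^ (r - j) * ∏ l ∈ range (j + 1), c (i + l) := by
    refine sum_congr rfl fun j _ ↦ ?_
    have : r + 1 - (j + 1) = r - j := by omega
    rw [this]
  rw [e4]
  simp
  ring

/-- The classification of the squarefree fixed points. -/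
theorem classify {n : ℕ} (hn : 0 < n) (hsf : Squarefree n) :
    a n = n ↔ ∃ c : ℕ → ℕ, (∀ i, c (i + n.primeFactors.card) = c i) ∧
      (∏ i ∈ range n.primeFactors.card, c i = 2 ^ n.primeFactors.card + 1) ∧
      n.primeFactors = (range n.primeFactors.card).image (X n.primeFactors.card c) := by
  constructor
  · intro h
    have hn1 : 1 < n := by
      rcases Nat.eq_or_lt_of_le (show 1 ≤ n from hn) with h1 | h1
      · rw [← h1] at h
        simp [a] at h
      · exact h1
    obtain ⟨x, c, hx, hs, hp, himg⟩ := cycle hn1 h hsf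
    have hR : 0 < n.primeFactors.card := card_pos.2 (Nat.nonempty_primeFactors.2 hn1)
    refine ⟨c, c_per hR hx hs, hp, ?_⟩
    have h1 : x = X n.primeFactors.card c := funext (x_eq hR hx hs hp)
    rwa [h1] at himg
  · rintro ⟨c, hc, hp, himg⟩
    set R := n.primeFactors.card with hRdef
    have hR : 0 < R := by
      rcases Nat.eq_zero_or_pos R with h0 | h0
      · rw [h0] at hp
        simp at hp
      · exact h0
    have hrec := X_rec hR hc hp
    have hinj : Set.InjOn (X R c) (range R : Finset ℕ) := by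
      rw [← card_image_iff, ← himg, card_range]
    have hXp : ∀ i, X R c (i + R) = X R c i := by
      intro i
      unfold X
      refine sum_congr rfl fun j _ ↦ ?_
      congr 1
      refine prod_congr rfl fun l _ ↦ ?_
      have : i + R + l = i + l + R := by ring
      rw [this, hc]
    have h1 : ∏ i ∈ range R, X R c i = n := by
      have h0 : ∏ p ∈ (range R).image (X R c), p = n := by
        rw [← himg]
        exact Nat.prod_primeFactors_of_squarefree hsf
      rwa [prod_image hinj] at h0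
    have h2 : ∏ i ∈ range R, X R c (i + 1) = n := by
      have h3 : (∏ i ∈ range R, X R c (i + 1)) * X R c 0 =
          (∏ i ∈ range R, X R c i) * X R c R := by
        rw [← prod_range_succ', prod_range_succ]
      have h4 : X R c R = X R c 0 := by have := hXp 0; rwa [zero_add] at this
      rw [h4, h1] at h3
      have h5 : 0 < X R c 0 := by
        have h6 : X R c 0 ∈ n.primeFactors := by
          rw [himg]
          exact mem_image_of_mem _ (mem_range.2 hR)
        exact (Nat.prime_of_mem_primeFactors h6).pos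
      exact Nat.eq_of_mul_eq_mul_right h5 h3
    have h3 : (∏ i ∈ range R, c i) * ∏ i ∈ range R, X R c (i + 1) =
        ∏ i ∈ range R, (2 * X R c i + 1) := by
      rw [← prod_mul_distrib]
      exact prod_congr rfl fun i _ ↦ hrec i
    have h4 : ∏ i ∈ range R, (2 * X R c i + 1) = ∏ p ∈ n.primeFactors, (1 + 2 * p) := by
      conv_rhs => rw [himg]
      rw [prod_image hinj]
      exact prod_congr rfl fun i _ ↦ by ring
    rw [fix_iff hn, F_prod hn.ne', card_sqf hn hsf]
    have h5 : ∏ p ∈ n.primeFactors, G p (n.factorization p) = ∏ p ∈ n.primeFactors, (1 + 2 * p) := by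
      refine prod_congr rfl fun p hp ↦ ?_
      rw [fact_one hsf hp]
      simp [G, sum_range_succ]
    rw [h5, ← h4, ← h3, h2, hp]
    ring

/-- A number congruent to `2` modulo `3` has a prime factor congruent to `2` modulo `3`. -/
theorem exists_prime_two (c : ℕ) (hc : c % 3 = 2) : ∃ q, q.Prime ∧ q ∣ c ∧ q % 3 = 2 := by
  induction c using Nat.strong_induction_on with
  | _ c ih =>
    have hc1 : c ≠ 1 := by omega
    have hp := Nat.minFac_prime hc1
    obtain ⟨d, hd⟩ := Nat.minFac_dvd c
    by_cases h2 : c.minFac % 3 = 2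
    · exact ⟨c.minFac, hp, Nat.minFac_dvd c, h2⟩
    · have h0 : c.minFac % 3 ≠ 0 := by
        intro h0
        have h3 : 3 ∣ c := (Nat.dvd_of_mod_eq_zero h0).trans (Nat.minFac_dvd c)
        omega
      have h1 : c.minFac % 3 = 1 := by omega
      have hd2 : d % 3 = 2 := by
        have h3 : c % 3 = (c.minFac * d) % 3 := by rw [← hd]
        rw [Nat.mul_mod, h1, one_mul, Nat.mod_mod] at h3
        omega
      have hlt : d < c := by
        have h4 : 2 ≤ c.minFac := hp.two_le
        have h5 : 0 < d := by omega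
        nlinarith
      obtain ⟨q, hq, hqd, hq3⟩ := ih d hlt hd2
      exact ⟨q, hq, hqd.trans ⟨c.minFac, by rw [mul_comm]; exact hd⟩, hq3⟩

theorem three_pow {R : ℕ} (hR : 2 ≤ R) : 2 ^ R + 1 < 3 ^ R := by
  induction R, hR using Nat.le_induction with
  | base => norm_num
  | succ R _ ih =>
    have h1 : 0 < 2 ^ R := by positivity
    rw [pow_succ, pow_succ]
    omega

theorem two_pow_odd {R : ℕ} (hR : Odd R) : (2 ^ R + 1) % 3 = 0 := by
  obtain ⟨r, rfl⟩ := hR
  rw [pow_succ, pow_mul, Nat.add_mod, Nat.mul_mod, Nat.pow_mod]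
  simp

/-- `2^R + 1` has a prime factor congruent to `2` modulo `3`. -/
theorem exists_two_mod {x c : ℕ → ℕ} {R : ℕ} (hR2 : 2 ≤ R) (hodd : Odd R)
    (hx : ∀ i, x (i + R) = x i) (hs : ∀ i, c i * x (i + 1) = 2 * x i + 1)
    (hp : ∏ i ∈ range R, c i = 2 ^ R + 1) (h3 : ∀ i, ¬ 3 ∣ x i) :
    ∃ q, q.Prime ∧ q ∣ 2 ^ R + 1 ∧ q % 3 = 2 := by
  have hR : 0 < R := by omega
  by_contra hno
  push Not at hno
  have hcper := c_per hR hx hs
  have hcd : ∀ i, c i ∣ 2 ^ R + 1 := by
    intro i
    have h1 : c i = c (i % R) :=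
      ((show Function.Periodic c R from hcper).map_mod_nat i).symm
    rw [h1, ← hp]
    exact dvd_prod_of_mem c (mem_range.2 (Nat.mod_lt i hR))
  have hc2 : ∀ i, c i % 3 ≠ 2 := by
    intro i hi
    obtain ⟨q, hq, hqd, hq3⟩ := exists_prime_two (c i) hi
    exact hno q hq (hqd.trans (hcd i)) hq3
  by_cases hA : ∃ i, x i % 3 = 2
  · obtain ⟨i, hi⟩ := hA
    have hstep : ∀ j, x j % 3 = 2 → c j % 3 = 1 ∧ x (j + 1) % 3 = 2 := by
      intro j hj
      have h1 : (c j * x (j + 1)) % 3 = 2 := by rw [hs j]; omega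
      rw [Nat.mul_mod] at h1
      have h2 := hc2 j
      have h4 : c j % 3 < 3 := Nat.mod_lt _ (by norm_num)
      have h5 : c j % 3 = 0 ∨ c j % 3 = 1 := by omega
      rcases h5 with h5 | h5
      · rw [h5, zero_mul] at h1
        norm_num at h1
      · rw [h5, one_mul, Nat.mod_mod] at h1
        exact ⟨h5, h1⟩
    have hall : ∀ k, x (i + k) % 3 = 2 := by
      intro k
      induction k with
      | zero => exact hi
      | succ k ih => exact (hstep _ ih).2
    have hxall : ∀ j, x j % 3 = 2 := by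
      intro j
      have h1 : ∀ m, x (j + m * R) = x j := by
        intro m
        induction m with
        | zero => simp
        | succ m ih =>
          have : j + (m + 1) * R = j + m * R + R := by ring
          rw [this, hx, ih]
      have h2 : i ≤ j + i * R := by nlinarith
      obtain ⟨k, hk⟩ := Nat.exists_eq_add_of_le h2
      rw [← h1 i, hk]
      exact hall k
    have h1 : (∏ i ∈ range R, c i) ≡ ∏ i ∈ range R, 1 [MOD 3] :=
      Nat.ModEq.prod fun j _ ↦ (hstep j (hxall j)).1
    rw [hp, prod_const_one] at h1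
    have h2 := two_pow_odd hodd
    have h4 : (2 ^ R + 1) % 3 = 1 % 3 := h1
    omega
  · push Not at hA
    have hc0 : ∀ i, 3 ∣ c i := by
      intro i
      have h1 : x i % 3 = 1 := by
        have := h3 i
        have := hA i
        omega
      have h2 : 3 ∣ c i * x (i + 1) := by rw [hs i]; omega
      exact (Nat.prime_three.dvd_mul.1 h2).resolve_right (h3 (i + 1))
    have h1 : 3 ^ R ∣ ∏ i ∈ range R, c i := by
      have : 3 ^ R = ∏ i ∈ range R, 3 := by rw [prod_const, card_range]
      rw [this]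
      exact prod_dvd_prod_of_dvd _ _ fun i _ ↦ hc0 i
    rw [hp] at h1
    have h2 := Nat.le_of_dvd (by positivity) h1
    have := three_pow hR2
    omega

/-- Descent: a prime congruent to `2` modulo `3` dividing `2^(3t) + 1` divides `2^t + 1`. -/
theorem descent {q t : ℕ} (hq : q.Prime) (hq3 : q % 3 = 2) (hd : q ∣ 2 ^ (3 * t) + 1) :
    q ∣ 2 ^ t + 1 := by
  have : Fact q.Prime := ⟨hq⟩
  have h1 : ((2 : ZMod q) ^ t) ^ 3 + 1 = 0 := by
    have h2 : ((2 ^ (3 * t) + 1 : ℕ) : ZMod q) = 0 := (ZMod.natCast_eq_zero_iff _ _).2 hd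
    push_cast at h2
    rw [← pow_mul, mul_comm t 3]
    exact h2
  set y : ZMod q := -(2 : ZMod q) ^ t with hy
  have hy3 : y ^ 3 = 1 := by
    rw [hy]
    have : (-(2 : ZMod q) ^ t) ^ 3 = -((2 : ZMod q) ^ t) ^ 3 := by ring
    rw [this]
    linear_combination -h1
  have hy0 : y ≠ 0 := by
    intro h0
    rw [h0] at hy3
    simp at hy3
  have hyq : y ^ (q - 1) = 1 := ZMod.pow_card_sub_one_eq_one hy0
  have h2 : orderOf y ∣ Nat.gcd 3 (q - 1) :=
    Nat.dvd_gcd (orderOf_dvd_of_pow_eq_one hy3) (orderOf_dvd_of_pow_eq_one hyq)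
  have h3 : Nat.gcd 3 (q - 1) = 1 := by
    have : Nat.Coprime 3 (q - 1) := (Nat.Prime.coprime_iff_not_dvd Nat.prime_three).2 (by omega)
    exact this
  rw [h3, Nat.dvd_one, orderOf_eq_one_iff] at h2
  have h4 : ((2 ^ t + 1 : ℕ) : ZMod q) = 0 := by
    push_cast
    rw [hy] at h2
    linear_combination -h2
  exact (ZMod.natCast_eq_zero_iff _ _).1 h4

theorem descent' {q m : ℕ} (hq : q.Prime) (hq3 : q % 3 = 2) (k : ℕ)
    (hd : q ∣ 2 ^ (m * 3 ^ k) + 1) : q ∣ 2 ^ m + 1 := by
  induction k with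
  | zero => simpa using hd
  | succ k ih =>
    refine ih (descent hq hq3 ?_)
    have : 3 * (m * 3 ^ k) = m * 3 ^ (k + 1) := by ring
    rwa [this]

theorem not_small {q m : ℕ} (hq : q.Prime) (hq3 : q % 3 = 2)
    (hm : m = 1 ∨ m = 7 ∨ m = 13 ∨ m = 19) : ¬ q ∣ 2 ^ m + 1 := by
  have key : ∀ r : ℕ, r.Prime → r % 3 = 1 → ¬ q ∣ 3 * r := by
    intro r hr hr3 hd
    rcases hq.dvd_mul.1 hd with h | h
    · have := (Nat.prime_dvd_prime_iff_eq hq Nat.prime_three).1 h
      omega
    · have := (Nat.prime_dvd_prime_iff_eq hq hr).1 h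
      omega
  rcases hm with rfl | rfl | rfl | rfl
  · intro hd
    have h : q ∣ 3 := by simpa using hd
    have := (Nat.prime_dvd_prime_iff_eq hq Nat.prime_three).1 h
    omega
  · have := key 43 (by norm_num) (by norm_num)
    norm_num at this ⊢
    exact this
  · have := key 2731 (by norm_num) (by norm_num)
    norm_num at this ⊢
    exact this
  · have := key 174763 (by norm_num) (by norm_num)
    norm_num at this ⊢
    exact this

end Pool.Agent.Helper91.FP
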