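import Pool.Agent.Helper91.FP.Basic

/-!
# Fixed points with two prime factors: only 21
-/

set_option autoImplicit false

namespace Pool.Agent.Helper91.FP

open Finset

theorem G_parity {p : ℕ} (hp : Odd p) (k : ℕ) :
    G p k % 2 = if k % 4 = 0 ∨ k % 4 = 1 then 1 else 0 := by
  induction k with
  | zero => simp [G]
  | succ k ih =>
    rw [G_succ]
    have h1 : p ^ (k + 1) % 2 = 1 := Nat.odd_iff.1 (hp.pow)
    rw [Nat.add_mod, ih, Nat.mul_mod, h1, mul_one, Nat.mod_mod]
    have h2 : k % 4 = 0 ∨ k % 4 = 1 ∨ k % 4 = 2 ∨ k % 4 = 3 := by omega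
    rcases h2 with h | h | h | h
    · have e1 : (k + 1) % 4 = 1 := by omega
      have e2 : (k + 2) % 2 = 0 := by omega
      simp [h, e1, e2]
    · have e1 : (k + 1) % 4 = 2 := by omega
      have e2 : (k + 2) % 2 = 1 := by omega
      simp [h, e1, e2]
    · have e1 : (k + 1) % 4 = 3 := by omega
      have e2 : (k + 2) % 2 = 0 := by omega
      simp [h, e1, e2]
    · have e1 : (k + 1) % 4 = 0 := by omega
      have e2 : (k + 2) % 2 = 1 := by omega
      simp [h, e1, e2]

theorem G_odd_iff {p : ℕ} (hp : Odd p) (k : ℕ) : Odd (G p k) ↔ k % 4 = 0 ∨ k % 4 = 1 := by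
  rw [Nat.odd_iff, G_parity hp]
  split_ifs with h
  · simp [h]
  · simp [h]

theorem G_mod2 (p k : ℕ) (hk : 1 ≤ k) : ∃ w, G p k = 1 + 2 * p + p ^ 2 * w := by
  obtain ⟨j, rfl⟩ : ∃ j, k = j + 1 := ⟨k - 1, by omega⟩
  clear hk
  induction j with
  | zero => exact ⟨0, by simp [G, sum_range_succ]⟩
  | succ j ih =>
    obtain ⟨w, hw⟩ := ih
    exact ⟨w + (j + 1 + 2) * p ^ j, by rw [G_succ, hw]; ring⟩

theorem F_prime {q : ℕ} (hq : q.Prime) : F q = 1 + 2 * q := by
  have := F_pow hq 1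
  rw [pow_one] at this
  rw [this]
  simp [G, sum_range_succ]

/-- One of the two exponents is one. -/
theorem expo_one {p q b : ℕ} (hp : p.Prime) (hq : q.Prime) (hpq : p ≠ q) (hb : 1 ≤ b)
    (h : a (p ^ b * q) = p ^ b * q) : p ^ b * q = 21 := by
  have hnd : ¬ p ∣ q := fun h' ↦ hpq ((Nat.prime_dvd_prime_iff_eq hp hq).1 h')
  have hcq : q.divisors.card = 2 := by
    have := card_div_pow hq 1
    rwa [pow_one] at this
  have h1 := split_eq hp hnd hq.pos h
  rw [F_prime hq, hcq] at h1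
  have hs := size hp hnd hq.pos hb h
  rw [hcq] at hs
  -- the factors
  have hc1 : Nat.Coprime (p ^ b) (G p b) := ((G_coprime p b).symm.pow_left b)
  obtain ⟨v, hv⟩ : p ^ b ∣ 1 + 2 * q := by
    refine hc1.dvd_of_dvd_mul_left ⟨q * (1 + (b + 1) * 2), ?_⟩
    rw [h1]; ring
  have hc2 : Nat.Coprime q (1 + 2 * q) := by
    simp
  obtain ⟨u, hu⟩ : q ∣ G p b := by
    refine hc2.dvd_of_dvd_mul_right ⟨p ^ b * (1 + (b + 1) * 2), ?_⟩
    rw [h1]; ring
  have hpb : 0 < p ^ b := pow_pos hp.pos b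
  have huv : u * v = 2 * b + 3 := by
    rw [hu, hv] at h1
    have h2 : (p ^ b * q) * (u * v) = (p ^ b * q) * (2 * b + 3) := by
      calc (p ^ b * q) * (u * v) = q * u * (p ^ b * v) := by ring
        _ = _ := by rw [h1]; ring
    exact Nat.eq_of_mul_eq_mul_left (Nat.mul_pos hpb hq.pos) h2
  have hpu : p ∣ u + 2 := by
    obtain ⟨s, hs'⟩ := G_mod p b
    have h2 : u * (p ^ b * v) = u + 2 + p * (2 * s) := by
      rw [← hv]
      have h3 : u * q = 1 + p * s := by rw [← hs', hu]; ring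
      calc u * (1 + 2 * q) = u + 2 * (u * q) := by ring
        _ = _ := by rw [h3]; ring
    have h3 : p ∣ u * (p ^ b * v) :=
      Dvd.dvd.mul_left (Dvd.dvd.mul_right (dvd_pow_self p (by omega)) v) u
    rw [h2] at h3
    exact (Nat.dvd_add_left ⟨2 * s, rfl⟩).1 h3
  obtain ⟨t, ht⟩ := hpu
  have ht0 : 1 ≤ t := by
    rcases Nat.eq_zero_or_pos t with h0 | h0
    · rw [h0] at ht; omega
    · exact h0
  have hpt : p ≤ u + 2 := by rw [ht]; exact Nat.le_mul_of_pos_right p ht0
  have hv0 : 1 ≤ v := by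
    rcases Nat.eq_zero_or_pos v with h0 | h0
    · rw [h0] at huv; omega
    · exact h0
  have hu0 : 1 ≤ u := by
    rcases Nat.eq_zero_or_pos u with h0 | h0
    · rw [h0] at huv; omega
    · exact h0
  rcases Nat.eq_or_lt_of_le hb with hb1 | hb2
  · -- `b = 1`
    subst hb1
    rw [pow_one] at hv ⊢
    have h5 : u * v = 5 := by omega
    have hu5 : u ∣ 5 := ⟨v, h5.symm⟩
    have hu' : u = 1 ∨ u = 5 := (Nat.dvd_prime Nat.prime_five).1 hu5
    rcases hu' with rfl | rfl
    · have hv5 : v = 5 := by omega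
      have hp3 : p = 3 := by
        have : p ∣ 3 := ⟨t, ht⟩
        exact (Nat.prime_dvd_prime_iff_eq hp Nat.prime_three).1 this
      subst hp3
      rw [hv5] at hv
      omega
    · have hv5 : v = 1 := by omega
      have hp7 : p = 7 := by
        have : p ∣ 7 := ⟨t, ht⟩
        exact (Nat.prime_dvd_prime_iff_eq hp (by norm_num)).1 this
      subst hp7
      rw [hv5] at hv
      omega
  · -- `b ≥ 2`
    exfalso
    have hv1 : v = 1 := by
      by_contra hne
      have hv2 : 2 ≤ v := by omega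
      have h2 : u * 2 ≤ u * v := Nat.mul_le_mul_left u hv2
      have hb' : b = 2 := by omega
      subst hb'
      have hu3 : u = 3 := by omega
      rw [hu3] at huv
      omega
    rw [hv1, mul_one] at huv hv
    have ht1 : t = 1 := by
      by_contra hne
      have ht2 : 2 ≤ t := by omega
      have h2 : p * 2 ≤ p * t := Nat.mul_le_mul_left p ht2
      omega
    rw [ht1, mul_one] at ht
    obtain ⟨w, hw⟩ := G_mod2 p b (by omega)
    obtain ⟨c, hc⟩ : ∃ c, b = c + 2 := ⟨b - 2, by omega⟩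
    have h2 : 2 * G p b + u = u * p ^ b := by
      rw [hu, ← hv]; ring
    have hpu : u + 2 = p := ht
    have h3 : p ∣ 5 := by
      have h4 : 5 * p + 2 * (p ^ 2 * w) = u * p ^ b := by
        have : 2 * (1 + 2 * p + p ^ 2 * w) + u = u * p ^ b := by rw [← hw]; exact h2
        nlinarith
      have h5 : p ^ 2 ∣ 5 * p := by
        have h6 : p ^ 2 ∣ 5 * p + 2 * (p ^ 2 * w) := by
          rw [h4, hc, pow_add]
          exact ⟨u * p ^ c, by ring⟩
        exact (Nat.dvd_add_left ⟨2 * w, by ring⟩).1 h6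
      rw [pow_two] at h5
      exact Nat.dvd_of_mul_dvd_mul_right hp.pos h5
    have h4 : p = 5 := (Nat.prime_dvd_prime_iff_eq hp Nat.prime_five).1 h3
    omega

/-- The decisive inequality. -/
theorem ineq (p q u v a b P Q : ℤ) (hp3 : 3 ≤ p) (hpq : p < q) (ha : 2 ≤ a) (hb : 4 ≤ b)
    (hu0 : 1 ≤ u) (hv0 : 1 ≤ v) (huv : u * v = 1 + (a + 1) * (b + 1))
    (e1 : (p - 1) ^ 2 * (Q * u) = ((a + 1) * p ^ 2 - (a + 2) * p) * P + 1)
    (e2 : (q - 1) ^ 2 * (P * v) = ((b + 1) * q ^ 2 - (b + 2) * q) * Q + 1)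
    (hQ4 : q ^ 4 ≤ Q) (hq : b * (a + 1) + 1 ≤ q) : False := by
  set X : ℤ := (a + 1) * p ^ 2 - (a + 2) * p with hX
  set Y : ℤ := (b + 1) * q ^ 2 - (b + 2) * q with hY
  have hq0 : 0 < q := by linarith
  have hQpos : 0 < Q := lt_of_lt_of_le (by positivity) hQ4
  have hkey : Q * ((p - 1) ^ 2 * (q - 1) ^ 2 * (u * v) - X * Y) = X + v * (q - 1) ^ 2 := by
    have h3 : (p - 1) ^ 2 * (Q * u) * (v * (q - 1) ^ 2) =
        (X * P + 1) * (v * (q - 1) ^ 2) := by rw [e1]
    have h4 : X * ((q - 1) ^ 2 * (P * v)) = X * (Y * Q + 1) := by rw [e2]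
    linear_combination h3 + h4
  have hXpos : 0 < X := by
    have h1 : X = p * ((a + 1) * p - (a + 2)) := by rw [hX]; ring
    rw [h1]
    have h2 : (a + 1) * 3 ≤ (a + 1) * p := mul_le_mul_of_nonneg_left hp3 (by linarith)
    have h3 : 0 < (a + 1) * p - (a + 2) := by linarith
    exact mul_pos (by linarith) h3
  have hvq : 0 ≤ v * (q - 1) ^ 2 := mul_nonneg (by linarith) (sq_nonneg _)
  have hRpos : 0 < X + v * (q - 1) ^ 2 := by linarith
  have hZpos : 0 < (p - 1) ^ 2 * (q - 1) ^ 2 * (u * v) - X * Y := by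
    rw [← hkey] at hRpos
    exact (mul_pos_iff_of_pos_left hQpos).1 hRpos
  have hQle : Q ≤ X + v * (q - 1) ^ 2 := by
    rw [← hkey]
    exact le_mul_of_one_le_right hQpos.le hZpos
  have hvN : v ≤ 1 + (a + 1) * (b + 1) := by
    rw [← huv]
    exact le_mul_of_one_le_left (by linarith) hu0
  have h6 : X ≤ (a + 1) * q ^ 2 := by
    have h1 : (a + 1) * p ^ 2 ≤ (a + 1) * q ^ 2 :=
      mul_le_mul_of_nonneg_left (pow_le_pow_left₀ (by linarith) hpq.le 2) (by linarith)
    have h2 : 0 ≤ (a + 2) * p := mul_nonneg (by linarith) (by linarith)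
    rw [hX]
    linarith
  have h7 : v * (q - 1) ^ 2 ≤ (1 + (a + 1) * (b + 1)) * q ^ 2 :=
    mul_le_mul hvN (pow_le_pow_left₀ (by linarith) (by linarith) 2) (sq_nonneg _)
      (by nlinarith)
  have h8 : (b * (a + 1) + 1) ^ 2 ≤ q ^ 2 :=
    pow_le_pow_left₀ (by nlinarith) hq 2
  have h9 : (a + 1) + (1 + (a + 1) * (b + 1)) < (b * (a + 1) + 1) ^ 2 := by
    have h1 : 3 ≤ a + 1 := by linarith
    generalize a + 1 = t at h1
    have h2 : 4 * (b * t) ≤ b * (b * t) :=
      mul_le_mul_of_nonneg_right hb (mul_nonneg (by linarith) (by linarith))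
    have h3 : b * (b * t) * 3 ≤ b * (b * t) * t :=
      mul_le_mul_of_nonneg_left h1 (mul_nonneg (by linarith) (mul_nonneg (by linarith) (by linarith)))
    have h4 : 4 * t ≤ b * t := mul_le_mul_of_nonneg_right hb (by linarith)
    have h5 : (b * t + 1) ^ 2 = b * (b * t) * t + 2 * (b * t) + 1 := by ring
    rw [h5]
    nlinarith
  have h10 : Q < q ^ 2 * q ^ 2 := by
    calc Q ≤ X + v * (q - 1) ^ 2 := hQle
      _ ≤ ((a + 1) + (1 + (a + 1) * (b + 1))) * q ^ 2 := by linarith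
      _ < q ^ 2 * q ^ 2 := mul_lt_mul_of_pos_right (by linarith) (by positivity)
  have h11 : q ^ 4 = q ^ 2 * q ^ 2 := by ring
  linarith

/-- The case of exponents at least two. -/
theorem expo_two {p q a' b : ℕ} (hp : p.Prime) (hq : q.Prime) (hpq : p < q) (hp2 : p ≠ 2)
    (ha : 2 ≤ a') (hb : 2 ≤ b) (h : a (p ^ a' * q ^ b) = p ^ a' * q ^ b) : False := by
  have hq2 : q ≠ 2 := by have := hp.two_le; omega
  have hpo : Odd p := hp.odd_of_ne_two hp2
  have hqo : Odd q := hq.odd_of_ne_two hq2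
  have hne : p ≠ q := hpq.ne
  have hnd : ¬ p ∣ q ^ b := fun h' ↦ hne ((Nat.prime_dvd_prime_iff_eq hp hq).1
    (hp.dvd_of_dvd_pow h'))
  have hnd' : ¬ q ∣ p ^ a' := fun h' ↦ hne.symm ((Nat.prime_dvd_prime_iff_eq hq hp).1
    (hq.dvd_of_dvd_pow h'))
  have h' : a (q ^ b * p ^ a') = q ^ b * p ^ a' := by rw [mul_comm]; exact h
  have h1 := split_eq hp hnd (pow_pos hq.pos b) h
  rw [F_pow hq, card_div_pow hq] at h1
  have hs := size hq hnd' (pow_pos hp.pos a') (by omega) h'
  rw [card_div_pow hp] at hs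
  have hP : 0 < p ^ a' := pow_pos hp.pos _
  have hQ : 0 < q ^ b := pow_pos hq.pos _
  have hc1 : Nat.Coprime (p ^ a') (G p a') := ((G_coprime p a').symm.pow_left _)
  have hc2 : Nat.Coprime (q ^ b) (G q b) := ((G_coprime q b).symm.pow_left _)
  obtain ⟨v, hv⟩ : p ^ a' ∣ G q b := by
    refine hc1.dvd_of_dvd_mul_left ⟨q ^ b * (1 + (a' + 1) * (b + 1)), ?_⟩
    rw [h1]; ring
  obtain ⟨u, hu⟩ : q ^ b ∣ G p a' := by
    refine hc2.dvd_of_dvd_mul_right ⟨p ^ a' * (1 + (a' + 1) * (b + 1)), ?_⟩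
    rw [h1]; ring
  have huv : u * v = 1 + (a' + 1) * (b + 1) := by
    rw [hu, hv] at h1
    have h2 : (p ^ a' * q ^ b) * (u * v) = (p ^ a' * q ^ b) * (1 + (a' + 1) * (b + 1)) := by
      calc (p ^ a' * q ^ b) * (u * v) = q ^ b * u * (p ^ a' * v) := by ring
        _ = _ := by rw [h1]
    exact Nat.eq_of_mul_eq_mul_left (Nat.mul_pos hP hQ) h2
  have hv0 : 1 ≤ v := by
    rcases Nat.eq_zero_or_pos v with h0 | h0
    · rw [h0] at huv; omega
    · exact h0
  have hu0 : 1 ≤ u := by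
    rcases Nat.eq_zero_or_pos u with h0 | h0
    · rw [h0] at huv; omega
    · exact h0
  -- parity: `b ≥ 4`
  have hPo : Odd (p ^ a') := hpo.pow
  have hQo : Odd (q ^ b) := hqo.pow
  have hb4 : 4 ≤ b := by
    by_contra hlt
    have hb' : b = 2 ∨ b = 3 := by omega
    have hGq : ¬ Odd (G q b) := by
      rw [G_odd_iff hqo]
      omega
    have hve : Even v := by
      rw [hv] at hGq
      by_contra hvo
      exact hGq (hPo.mul (Nat.not_even_iff_odd.1 hvo))
    have hN : Even (1 + (a' + 1) * (b + 1)) := by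
      rw [← huv]; exact hve.mul_left u
    have hodd : Odd ((a' + 1) * (b + 1)) := by
      by_contra h2
      have h3 := Nat.not_odd_iff_even.1 h2
      have : Odd (1 + (a' + 1) * (b + 1)) := odd_one.add_even h3
      exact (Nat.not_even_iff_odd.2 this) hN
    have hoa : Odd (a' + 1) := Nat.odd_mul.1 hodd |>.1
    have hob : Odd (b + 1) := Nat.odd_mul.1 hodd |>.2
    have hb2 : b = 2 := by
      rcases hb' with h2 | h2
      · exact h2
      · rw [h2] at hob
        exact absurd hob (by decide)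
    subst hb2
    have hGq2 : G q 2 % 4 = 2 := by
      obtain ⟨j, hj⟩ := hqo
      have : G q 2 = 4 * (1 + 4 * j + 3 * j ^ 2) + 2 := by
        simp only [G, sum_range_succ, range_zero, sum_empty]
        rw [hj]; ring
      omega
    have hev : Even a' := by
      by_contra h2
      have h3 := Nat.not_even_iff_odd.1 h2
      exact (Nat.not_even_iff_odd.2 hoa) (h3.add_odd odd_one)
    obtain ⟨r, hr⟩ := hev
    rcases Nat.even_or_odd r with ⟨t, ht⟩ | ⟨t, ht⟩
    · -- `4 ∣ a'`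
      have hGo : Odd (G p a') := by
        rw [G_odd_iff hpo]; omega
      have huo : Odd u := by
        rw [hu] at hGo
        exact (Nat.odd_mul.1 hGo).2
      have h4 : 4 ∣ u * v := by
        rw [huv]
        exact ⟨3 * t + 1, by rw [hr, ht]; ring⟩
      have hcop : Nat.Coprime 4 u := by
        have h2 : Nat.Coprime 2 u := (Nat.Prime.coprime_iff_not_dvd Nat.prime_two).2
          (fun h2 ↦ (Nat.not_even_iff_odd.2 huo) (even_iff_two_dvd.2 h2))
        have : Nat.Coprime (2 ^ 2) u := Nat.Coprime.pow_left 2 h2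
        simpa using this
      have h5 : 4 ∣ v := hcop.dvd_of_dvd_mul_left h4
      have h6 : 4 ∣ G q 2 := by
        rw [hv]
        exact Dvd.dvd.mul_left h5 _
      omega
    · have hGe : ¬ Odd (G p a') := by
        rw [G_odd_iff hpo]; omega
      have hue : Even u := by
        rw [hu] at hGe
        by_contra huo
        exact hGe (hQo.mul (Nat.not_even_iff_odd.1 huo))
      obtain ⟨u', hu'⟩ := hue
      obtain ⟨v', hv'⟩ := hve
      rw [hu', hv', hr, ht] at huv
      have : 4 * (u' * v') = 4 * (3 * t + 2) + 2 := by nlinarith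
      omega
  -- the inequality
  have e1 := G_closed p a'
  have e2 := G_closed q b
  rw [hu] at e1
  rw [hv] at e2
  push_cast at e1 e2
  have huv' : (u : ℤ) * v = 1 + (a' + 1) * (b + 1) := by exact_mod_cast huv
  have hp3 : (3 : ℤ) ≤ p := by
    have := hp.two_le
    have h3 : 3 ≤ p := by omega
    exact_mod_cast h3
  have hQ4 : (q : ℤ) ^ 4 ≤ (q : ℤ) ^ b := by
    have : q ^ 4 ≤ q ^ b := Nat.pow_le_pow_right hq.pos hb4
    exact_mod_cast this
  have hq' : (b : ℤ) * (a' + 1) + 1 ≤ q := by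
    have : b * (a' + 1) + 1 ≤ q := hs
    exact_mod_cast this
  exact ineq p q u v a' b ((p : ℤ) ^ a') ((q : ℤ) ^ b) hp3 (by exact_mod_cast hpq)
    (by exact_mod_cast ha) (by exact_mod_cast hb4) (by exact_mod_cast hu0)
    (by exact_mod_cast hv0) huv' e1 e2 hQ4 hq'

end Pool.Agent.Helper91.FP
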